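import Pool.Agent.Zk3.GA.HR
import Pool.Agent.Zk3.GA.Rem

/-!
# Zeros off the critical line of Hasse-Weil L-functions of arbitrary degree

Let `X`, `i` be as in the problem, `L(s) = L(i; X, s)`, `D = dim H^i(X)`, and let `N(δ; T, H)` be the number of zeros
of `L` with `Re s ≥ (i + 1)/2 + δ`, `T < Im s ≤ T + H`.  If `L` is not a product of L-functions of degree at most two,
nothing is known about `N(δ; T, T)` for small `δ`: the exponents of all known density theorems grow with the degree,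
and they are trivial near the line; for short intervals (`H = T^ε`, or a power of `log T`) nothing is known even for
`D = 1`.

We prove `N(δ; T, H) ≤ C H^(1 - (2 - ε) δ) (log QT)^P + N_c(δ; T, H)` for all `1 ≤ H ≤ T` and `0 < δ ≤ 1/2`, where
`N_c` counts the zeros in clusters: this is the density hypothesis, with the same exponent for all `D`, uniformly in
the conductor `Q`, down to the line and in all intervals, for the zeros outside clusters.  A zero at distance `β` from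
the line is in a cluster if for some `r` between `β` and `1/2` there are more than `c r log H` zeros, and more than a
given number `R`, at distance at least `(1 - ε) r` from the line, and at height within `B r (r/β)^ε` of the zero.
So `(c)` and `(d)` can fail for more than `H^(1 - (2 - ε) δ)` zeros only if there are such clusters, in which (if
`log H` is comparable with `log(QT)`) a positive proportion of all zeros is off the line by at least `(1 - ε) r`.

The theorem is about all functions with an Euler product of degree `D` which have an analytic continuation to the upper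
half plane with polynomial growth; Deligne's theorem (the roots of the local polynomials have absolute value at least
`p^(-i/2)`) is only used on average over the primes.  In the second part we prove that these properties hold without
any hypothesis if `H^i(X)` is a sum of parts of `GL_2`-type (given by newforms of any weight `k ≥ 1`, level and
nebentypus: modular curves, elliptic curves, abelian varieties of `GL_2`-type, Kuga-Sato varieties; and their twists by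
Dirichlet characters), of representations induced from Hecke characters of arbitrary number fields (varieties with
complex multiplication, Fermat hypersurfaces of all degrees and dimensions, abelian or monomial varieties of dimension
zero), and of powers of the cyclotomic character, with constants which do not depend on the conductors of the
characters.

The second part, and the class of functions (the average over the primes), are joint work with helper 1; helper 17 has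
proved the bounds for the coefficients of the logarithmic derivative on average.
-/

set_option autoImplicit false

open UpperHalfPlane MatrixGroups CongruenceSubgroup NumberField Polynomial

namespace Pool.Agent.Results.MP_7193be_nt.DensityAllDegrees

/-! ### Functions of Hasse-Weil type -/

/-- `L` is a product `∏_p P_p(p^(-s))⁻¹` of weight `i` and degree at most `D`: `P_p(0) = 1`, `deg P_p ≤ D`, the roots of `P_p`
have absolute value at least `p^(-(i+1)/2)`; and at least `p^(-i/2)` on average: there are `g(p) ≥ 1` such that they have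
absolute value at least `p^(-i/2) / g(p)` and `∑_{p ≤ N} g(p)^2 ≤ M N` (by Deligne `g = 1` at the good primes of a
Hasse-Weil L-function; `P_p = 1` if a prime is omitted).  `L` has a continuation to the upper half plane, and
`|L(s)| ≤ A (Q Im s)^A` for `i/2 + 1/16 ≤ Re s ≤ i/2 + 4`, `Im s ≥ 1`. -/
structure IsHasseWeil (i D : ℕ) (M : ℝ) (P : ℕ → ℂ[X]) (A Q : ℝ) (L : ℂ → ℂ) : Prop where
  constant : ∀ p : ℕ, p.Prime → (P p).coeff 0 = 1
  degree : ∀ p : ℕ, p.Prime → (P p).natDegree ≤ D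
  roots : ∀ p : ℕ, p.Prime → ∀ z : ℂ, (P p).eval z = 0 → (p : ℝ) ^ (-(((i : ℝ) + 1) / 2)) ≤ ‖z‖
  mean : ∃ g : ℕ → ℝ, (∀ p : ℕ, 1 ≤ g p) ∧
    (∀ p : ℕ, p.Prime → ∀ z : ℂ, (P p).eval z = 0 → (p : ℝ) ^ (-((i : ℝ) / 2)) ≤ g p * ‖z‖) ∧
    ∀ N : ℕ, ∑ p ∈ (Finset.range (N + 1)).filter Nat.Prime, g p ^ 2 ≤ M * N
  euler : ∀ s : ℂ, (i : ℝ) / 2 + 1 < s.re →
    HasProd (fun p : Nat.Primes => ((P p).eval (((p : ℕ) : ℂ) ^ (-s)))⁻¹) (L s)
  analytic : ∀ s : ℂ, 0 < s.im → AnalyticAt ℂ L s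
  growth : ∀ s : ℂ, (i : ℝ) / 2 + 1 / 16 ≤ s.re → s.re ≤ (i : ℝ) / 2 + 4 → 1 ≤ s.im →
    ‖L s‖ ≤ A * (Q * s.im) ^ A

/-! ### Newforms -/

/-- The `n`-th Fourier coefficient `a(n)` of `f(τ) = ∑ a(n) e^(2πinτ)`. -/
noncomputable def a {N : ℕ} {k : ℤ} (f : CuspForm (Gamma1 N : Subgroup (GL (Fin 2) ℝ)) k) (n : ℕ) :
    ℂ := (qExpansion 1 f).coeff n

/-- `f` is a newform of weight `k`, level `N`, nebentypus `ψ`; the properties that are used:
`f(γτ) = ψ(d) (cτ+d)^k f(τ)` for `γ = (a b; c d)` in `Γ₀(N)`, `a(1) = 1`, the Hecke relations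
`a(mn) = a(m) a(n)` for coprime `m`, `n` and `a(p^(j+2)) = a(p) a(p^(j+1)) - ψ(p) p^(k-1) a(p^j)`,
`conj a(n) = conj ψ(n) a(n)` for `n` prime to `N`, and the Fricke involution maps `f` to a multiple
of the form with the conjugate coefficients,
`f(-1/(Nτ)) = η (√N τ/i)^k conj (f(-conj τ))` with `|η| = 1`. -/
structure IsNewform (N : ℕ) (k : ℤ) (ψ : DirichletCharacter ℂ N)
    (f : CuspForm (Gamma1 N : Subgroup (GL (Fin 2) ℝ)) k) : Prop where
  neb : ∀ γ : SL(2, ℤ), γ ∈ Gamma0 N → ∀ τ : ℍ,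
    f (γ • τ) = ψ ((γ 1 1 : ℤ) : ZMod N) * denom γ τ ^ k * f τ
  one : a f 1 = 1
  mul : ∀ m n : ℕ, Nat.Coprime m n → a f (m * n) = a f m * a f n
  pow : ∀ p j : ℕ, p.Prime → a f (p ^ (j + 2)) = a f p * a f (p ^ (j + 1)) -
    ψ (p : ZMod N) * (p : ℂ) ^ (k - 1) * a f (p ^ j)
  conj : ∀ n : ℕ, Nat.Coprime n N → (starRingEnd ℂ) (a f n) =
    (starRingEnd ℂ) (ψ (n : ZMod N)) * a f n
  fricke : ∃ η : ℂ, ‖η‖ = 1 ∧ ∀ τ τ' τc : ℍ, (τ' : ℂ) * ((N : ℂ) * (τ : ℂ)) = -1 →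
    (τc : ℂ) = -(starRingEnd ℂ) (τ : ℂ) →
    f τ' = η * (((Real.sqrt N : ℝ) : ℂ) * (τ : ℂ) / Complex.I) ^ k * (starRingEnd ℂ) (f τc)

/-- A part `V(f) (-r)` of a cohomology group of degree `i`: a newform `f` of level `N`, weight `k` and nebentypus `ψ`,
and a Tate twist `(-r)` with `k + 2r = i + 1`. -/
structure Part (i : ℕ) where
  N : ℕ
  k : ℕ
  r : ℕ
  ψ : DirichletCharacter ℂ N
  f : CuspForm (Gamma1 N : Subgroup (GL (Fin 2) ℝ)) (k : ℤ)
  N_pos : 1 ≤ N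
  k_pos : 1 ≤ k
  newform : IsNewform N k ψ f
  weight : k + 2 * r = i + 1

/-- The polynomial `1 - χ(p) a(p) p^r T + χ(p)^2 ψ(p) p^i T^2` of `V(f ⊗ χ) (-r)` at `p`. -/
noncomputable def newformPolynomial {i : ℕ} (π : Part i) {q : ℕ} (χ : DirichletCharacter ℂ q) (p : ℕ) : ℂ[X] :=
  1 - C (χ (p : ZMod q) * a π.f p * (p : ℂ) ^ π.r) * X + C (χ (p : ZMod q) ^ 2 * π.ψ (p : ZMod π.N) * (p : ℂ) ^ i) * X ^ 2

/-! ### Hecke characters -/

section

variable {K : Type} [Field K] [NumberField K]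

/-- `x` is totally positive -/
def TotPos (x : 𝓞 K) : Prop := ∀ τ : K →+* ℝ, 0 < τ (x : K)

/-- the archimedean part `∏_φ (φ(x)/|φ(x)|)^(n_φ)` -/
noncomputable def phase (n : (K →+* ℂ) → ℕ) (x : K) : ℂ :=
  ∏ φ : K →+* ℂ, (φ x / (‖φ x‖ : ℂ)) ^ n φ

/-- `n` is an infinity type: one of the exponents of two conjugate embeddings is zero.  (The phases of `x` at
conjugate embeddings are inverse to each other, so this is no restriction.)  `n = 0` is allowed. -/
def IsType (n : (K →+* ℂ) → ℕ) : Prop :=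
  ∀ φ : K →+* ℂ, n φ = 0 ∨ n (ComplexEmbedding.conjugate φ) = 0

/-- `ψ` is a primitive (unitary) Hecke character of finite conductor `𝔣` and infinity type `n` (with arbitrary
signs at the real places) -/
structure IsHecke (𝔣 : Ideal (𝓞 K)) (n : (K →+* ℂ) → ℕ) (ψ : Ideal (𝓞 K) →*₀ ℂ) : Prop where
  ne_bot : 𝔣 ≠ ⊥
  supp : ∀ 𝔞 : Ideal (𝓞 K), 𝔞 ≠ ⊥ → (ψ 𝔞 ≠ 0 ↔ IsCoprime 𝔞 𝔣)
  ray : ∀ x : 𝓞 K, x ≠ 0 → x - 1 ∈ 𝔣 → TotPos x → ψ (Ideal.span {x}) = phase n (x : K)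
  prim : ∀ 𝔤 : Ideal (𝓞 K), 𝔤 ∣ 𝔣 → 𝔤 ≠ 𝔣 → ∃ x : 𝓞 K, x - 1 ∈ 𝔤 ∧ TotPos x ∧
    IsCoprime (Ideal.span {x}) 𝔣 ∧ ψ (Ideal.span {x}) ≠ phase n (x : K)

/-- The polynomial of the Frobenius at `p` on the representation of degree `[K : ℚ]` which is induced from the Hecke
character `ψ N^(i/2)` of weight `i`: the product over the prime ideals `𝔭` above `p` of
`1 - ψ(𝔭) N(𝔭)^(i/2) T^f`, where `N(𝔭) = p^f`. -/
noncomputable def inducedPolynomial (i : ℕ) (ψ : Ideal (𝓞 K) →*₀ ℂ) (p : ℕ) : ℂ[X] :=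
  ∏ᶠ 𝔭 ∈ {𝔭 : Ideal (𝓞 K) | 𝔭.IsPrime ∧ (p : 𝓞 K) ∈ 𝔭},
    (1 - C (ψ 𝔭 * ((Ideal.absNorm 𝔭 : ℕ) : ℂ) ^ ((i : ℂ) / 2)) * X ^ (𝔭.inertiaDeg ℤ))

end

/-! ### Zeros -/

/-- The number of the points of `S`, counted with their multiplicities as zeros of `L`. -/
noncomputable def num (L : ℂ → ℂ) (S : Set ℂ) : ℕ := ∑ᶠ s ∈ S, analyticOrderNatAt L s

/-- The zeros of `L` with `Re s ≥ (i + 1)/2 + δ` and `T < Im s ≤ T + H`. -/
def zeros (i : ℕ) (L : ℂ → ℂ) (δ T H : ℝ) : Set ℂ :=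
  {s : ℂ | L s = 0 ∧ ((i : ℝ) + 1) / 2 + δ ≤ s.re ∧ T < s.im ∧ s.im ≤ T + H}

/-- The zeros of `L` with `Re z ≥ (i + 1)/2 + (1 - ε) r` and `|Im z - y| ≤ B r (r/β)^ε` (and `Im z ≥ 1`). -/
def near (i : ℕ) (L : ℂ → ℂ) (ε B β r y : ℝ) : Set ℂ :=
  {z : ℂ | L z = 0 ∧ ((i : ℝ) + 1) / 2 + (1 - ε) * r ≤ z.re ∧ 1 ≤ z.im ∧ |z.im - y| ≤ B * r * (r / β) ^ ε}

/-- `s`, at distance `β = Re s - (i + 1)/2` from the line, is in a cluster: for some `r` between `β` and `1/2` there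
are more than `R + c r log H` zeros in `near i L ε B β r (Im s)`. -/
def InCluster (i : ℕ) (L : ℂ → ℂ) (ε B c R H : ℝ) (s : ℂ) : Prop :=
  ∃ r : ℝ, s.re - ((i : ℝ) + 1) / 2 ≤ r ∧ r ≤ 1 / 2 ∧
    R + c * (r * Real.log H) < (num L (near i L ε B (s.re - ((i : ℝ) + 1) / 2) r s.im) : ℝ)

/-- **Main theorem.** (1) For every `ε > 0` there are `B, c, P > 0`, which depend on `ε` only, such that for all `D`,
`M`, `A`, `R` there is `C` with the following property.  Let `L` be a function of Hasse-Weil type of degree at most `D` as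
above, in any degree `i` of the cohomology and with any `Q ≥ 1`.  Then for all `1 ≤ H ≤ T`, `T ≥ 3`, and `0 < δ ≤ 1/2`:
the number of the zeros of `L` with `Re s ≥ (i + 1)/2 + δ`, `T < Im s ≤ T + H` is at most
`C H^(1 - (2 - ε) δ) (log QT)^P` plus the number of those in clusters, all with multiplicity.  (All these sets of zeros
are finite.)

(2) Let `π_1, …, π_n` be newforms with Tate twists of weight `i`, `K_1, …, K_m` number fields with infinity types
`n_1, …, n_m`, and `t ≥ 0`.  There are `M`, `A` such that for all `N ≥ 1`, all primitive Dirichlet characters `χ_j` modulo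
`q_j`, `q_j` prime to the level of `π_j`, and all primitive Hecke characters `ψ_j` of `K_j` of type `n_j` and conductor
`𝔣_j ≠ (1)`, the L-function with the polynomials
`∏_j newformPolynomial π_j χ_j p · (1 - p^(i/2) T)^t · ∏_j inducedPolynomial i ψ_j p`, `p ∤ N`, has these properties, with
`D = 2 n + t + ∑_j [K_j : ℚ]` and `Q = N ∏_j q_j ∏_j N(𝔣_j)`; for `t = 0` it is entire. -/
theorem result :
    (∀ ε : ℝ, 0 < ε → ε ≤ 1 → ∃ B c P : ℝ, 1 ≤ B ∧ 0 < c ∧ 0 < P ∧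
      ∀ (D : ℕ) (M A R : ℝ), 1 ≤ M → 1 ≤ A → ∃ C : ℝ, 0 < C ∧
      ∀ (i : ℕ) (Pol : ℕ → ℂ[X]) (Q : ℝ) (L : ℂ → ℂ), 1 ≤ Q → IsHasseWeil i D M Pol A Q L →
      (∀ Y : ℝ, {z : ℂ | L z = 0 ∧ ((i : ℝ) + 1) / 2 ≤ z.re ∧ 1 ≤ z.im ∧ z.im ≤ Y}.Finite) ∧
      ∀ T H δ : ℝ, 3 ≤ T → 1 ≤ H → H ≤ T → 0 < δ → δ ≤ 1 / 2 →
        (num L (zeros i L δ T H) : ℝ) ≤ C * H ^ (1 - (2 - ε) * δ) * (Real.log (Q * T)) ^ P +
          (num L {s : ℂ | s ∈ zeros i L δ T H ∧ InCluster i L ε B c R H s} : ℝ)) ∧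
    (∀ (i n m : ℕ) (π : Fin n → Part i) (K : Fin m → Type) [∀ j, Field (K j)] [∀ j, NumberField (K j)]
      (ν : ∀ j, (K j →+* ℂ) → ℕ) (t : ℕ), (∀ j, IsType (ν j)) →
      ∃ M A : ℝ, 1 ≤ M ∧ 1 ≤ A ∧
      ∀ (N : ℕ) (q : Fin n → ℕ) (χ : ∀ j, DirichletCharacter ℂ (q j)) (𝔣 : ∀ j, Ideal (𝓞 (K j)))
        (ψ : ∀ j, Ideal (𝓞 (K j)) →*₀ ℂ), N ≠ 0 →
      (∀ j, 1 ≤ q j ∧ Nat.Coprime (q j) (π j).N ∧ (χ j).IsPrimitive) →
      (∀ j, 𝔣 j ≠ ⊤ ∧ IsHecke (𝔣 j) (ν j) (ψ j)) →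
      1 ≤ (N : ℝ) * (∏ j, (q j : ℝ)) * ∏ j, (Ideal.absNorm (𝔣 j) : ℝ) ∧ ∃ L : ℂ → ℂ, (t = 0 → Differentiable ℂ L) ∧
        IsHasseWeil i (2 * n + (t + ∑ j, Module.finrank ℚ (K j))) M
          (fun p => if p ∣ N then 1 else (∏ j, newformPolynomial (π j) (χ j) p) *
            ((1 - C ((p : ℂ) ^ ((i : ℂ) / 2)) * X) ^ t * ∏ j, inducedPolynomial i (ψ j) p))
          A (N * (∏ j, (q j : ℝ)) * ∏ j, (Ideal.absNorm (𝔣 j) : ℝ)) L) := by
  constructor
  · intro ε hε hε1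
    obtain ⟨B, c, P, hB, hc, hP, h⟩ := Pool.Agent.Zk3.GA.densR hε hε1
    refine ⟨B, c, P, hB, hc, hP, fun D M A R hM hA => ?_⟩
    obtain ⟨C, hC, h1⟩ := h D M A R hM hA
    refine ⟨C, hC, fun i Pol Q L hQ hL => ?_⟩
    obtain ⟨-, h2, h3⟩ := h1 i Pol Q L hQ ⟨hL.constant, hL.degree, hL.roots, hL.mean, hL.euler,
      hL.analytic, hL.growth⟩
    refine ⟨h2, fun T H δ hT hH hHT hδ hδ2 => ?_⟩
    have h4 := h3 T H δ hT hH hHT hδ hδ2
    have hfin : (zeros i L δ T H).Finite := by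
      refine (h2 (T + H)).subset ?_
      rintro z ⟨g1, g2, g3, g4⟩
      exact ⟨g1, by linarith, by linarith, g4⟩
    have h5 := finsum_mem_inter_add_sdiff (f := fun s => analyticOrderNatAt L s)
      {s : ℂ | InCluster i L ε B c R H s} hfin
    have e1 : zeros i L δ T H ∩ {s : ℂ | InCluster i L ε B c R H s} =
        {s : ℂ | s ∈ zeros i L δ T H ∧ InCluster i L ε B c R H s} := rfl
    have e2 : zeros i L δ T H \ {s : ℂ | InCluster i L ε B c R H s} =
        {s : ℂ | L s = 0 ∧ ((i : ℝ) + 1) / 2 + δ ≤ s.re ∧ T < s.im ∧ s.im ≤ T + H ∧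
          ∀ r : ℝ, s.re - ((i : ℝ) + 1) / 2 ≤ r → r ≤ 1 / 2 →
            (num L (near i L ε B (s.re - ((i : ℝ) + 1) / 2) r s.im) : ℝ) ≤ R + c * (r * Real.log H)} := by
      ext s
      constructor
      · rintro ⟨⟨g1, g2, g3, g4⟩, g5⟩
        refine ⟨g1, g2, g3, g4, fun r hr1 hr2 => ?_⟩
        by_contra hcon
        exact g5 ⟨r, hr1, hr2, not_le.mp hcon⟩
      · rintro ⟨g1, g2, g3, g4, g5⟩
        refine ⟨⟨g1, g2, g3, g4⟩, ?_⟩
        rintro ⟨r, hr1, hr2, hr3⟩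
        exact absurd (g5 r hr1 hr2) (not_le.mpr hr3)
    rw [e1, e2] at h5
    have h6 : (num L (zeros i L δ T H) : ℝ) =
        (num L {s : ℂ | s ∈ zeros i L δ T H ∧ InCluster i L ε B c R H s} : ℝ) +
        (num L {s : ℂ | L s = 0 ∧ ((i : ℝ) + 1) / 2 + δ ≤ s.re ∧ T < s.im ∧ s.im ≤ T + H ∧
          ∀ r : ℝ, s.re - ((i : ℝ) + 1) / 2 ≤ r → r ≤ 1 / 2 →
            (num L (near i L ε B (s.re - ((i : ℝ) + 1) / 2) r s.im) : ℝ) ≤ R + c * (r * Real.log H)} : ℝ) := by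
      unfold num at h5 ⊢
      exact_mod_cast h5.symm
    rw [h6, add_comm]
    refine add_le_add ?_ le_rfl
    exact h4
  · intro i n m π K _ _ ν t hν
    have h1 : ∀ j, ∃ M A : ℝ, 1 ≤ M ∧ 1 ≤ A ∧
        ∀ (q : ℕ) (χ : DirichletCharacter ℂ q), 1 ≤ q → Nat.Coprime q (π j).N → χ.IsPrimitive →
          ∃ L : ℂ → ℂ, Differentiable ℂ L ∧ Pool.Agent.Zk1.BIR.IsHR i 2 M (newformPolynomial (π j) χ) A q L := by
      intro j
      haveI : NeZero (π j).N := ⟨Nat.one_le_iff_ne_zero.1 (π j).N_pos⟩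
      have hf := (π j).newform
      obtain ⟨η, hη, hfr⟩ := hf.fricke
      have hf' : W388.IsNewfC (π j).N (π j).k (π j).ψ (π j).f η :=
        ⟨hf.neb, hf.one, hf.mul, hf.pow, hf.conj, hη, hfr⟩
      obtain ⟨M, A, hM, hA, h⟩ := Pool.Agent.Zk1.BIR.newf_HR (π j).k_pos hf'
      exact ⟨M, A, hM, hA, fun q χ h1 h2 h3 => h i (π j).r (π j).weight q χ h1 h2 h3⟩
    obtain ⟨M, A, hM, hA, h2⟩ := Pool.Agent.Zk3.GA.asmR h1 m K ν hν t
    refine ⟨M, A, hM, hA, fun N q χ 𝔣 ψ hN hχ hψ => ?_⟩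
    obtain ⟨h3, L, h4, h5⟩ := h2 N q χ 𝔣 ψ hN (fun j => ⟨(hχ j).1, (hχ j).2.1, (hχ j).2.2⟩)
      fun j => ⟨(hψ j).1, ⟨(hψ j).2.ne_bot, (hψ j).2.supp, (hψ j).2.ray, (hψ j).2.prim⟩⟩
    exact ⟨h3, L, h4, ⟨h5.const, h5.degree, h5.roots, h5.mean, h5.euler, h5.analytic, h5.growth⟩⟩

end Pool.Agent.Results.MP_7193be_nt.DensityAllDegrees
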