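import Pool.Agent.Zk4.G.Ex
import Pool.Agent.Zk4.G.Pow2
import Pool.Agent.Zk6.G.Trf7

/-!
# MP_7193be_nt: the zeros of Hasse-Weil L-functions off the line are the critical points of all derivatives (Fourier, Pólya)

Let `X` be projective and smooth over `ℤ[1/N]` and let `Λ` be the completed L-function `Λ_A(i; X, s)`, for even `i` multiplied by
`((s - i/2) (s - i/2 - 1))^r` if it has poles of order `r` at `s = i/2`, `i/2 + 1`.  Part (d) of the problem says that all zeros of `Λ`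
are on the line `Re s = x`, `x = (i + 1)/2`.  On this line `Λ^(j)` is, up to a constant factor, a real function of the ordinate `t`.
A critical point of order `j` is a `t` with `Λ^(j)(x + it) ≠ 0 = Λ^(j+1)(x + it)`; Fourier counts it with the weight `⌊m/2⌋`, plus one
if `|Λ^(j)(x + it)|` has a local minimum at `t`, where `m` is the multiplicity of the zero of `Λ^(j+1)` (a simple maximum, the case that
part (d) allows, has the weight zero).  For real `a ≤ b` let `M_n(a, b)` be the number of zeros of `Λ^(n)` off the line with ordinate in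
`(a, b]`, with multiplicity, `V_j(a, b)` the number of critical points of order `j` in `(a, b]`, with their weights, and
`W_n(a, b) = ∑_{j ≥ n} V_j(a, b)`.  Let `ℓ(y) = b_i + log 𝔠(y)` with the Betti number `b_i` and the analytic conductor `𝔠(y)` at height
`y`.  There is ONE constant `C`, the same for all `N`, `X`, `i`, such that

* `|M_n(a, b) - 2 W_n(a, b)| ≤ C (ℓ(a) + ℓ(b))` for all `n` and all `a ≤ b`;
* `M_n(a, b) = 2 W_n(a, b)` exactly, if for `T = a` and `T = b` no zero `β + iγ` of `Λ^(n)` off the line has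
  `(γ - T)² ≤ C ℓ(T) (β - x)²`;
* near every critical point `t` of order `n + k` and weight `≠ 0` there is a zero `β + iγ` of `Λ^(n)` off the line, with
  `|γ - t| ≤ √(k + 1) |β - x|`, and the order of every critical point `t` of weight `≠ 0` is `< C ℓ(t)`;
* all zeros of `Λ` are on the line (part (d) for `(X, i)`, if `r` is the order of the poles) if and only if all critical points of all
  orders have the weight zero, and `Λ^(n)` has only finitely many zeros off the line if and only if there are only finitely many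
  critical points of weight `≠ 0` of orders `≥ n`.

This is proved

* (I) for all `X` and `i` for which the continuation and the functional equation (parts (a), (b)) are known or assumed: `Λ` is entire, of
  finite order, and `Λ(s) = ± Λ(i + 1 - s)`;
* (II) without any hypothesis for `X = E^g`, `E : y² = x³ - x`, for all `g` and all odd `i < 2g`.

Joint work with helper 1 (the L-functions), helper 3 (Rolle's theorem between two heights), helper 6 (growth, the local criterion, the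
assembly) and helper 69 (the number of all zeros, winding numbers).
-/

set_option autoImplicit false

namespace Pool.Agent.Results.MP_7193be_nt.FourierPolyaHasseWeil

open Complex Polynomial
open scoped ComplexConjugate

/-! ### The data of a Hasse-Weil L-function -/

/-- The Betti number `b_i = 2 ∑_{p < q, p + q = i} h^{p,q} + h^{m,+} + h^{m,-}` (the last two for
`i = 2m`), where `hodge p = h^{p, i-p}`. -/
def bettiOf (i : ℕ) (hodge : ℕ → ℕ) (plus minus : ℕ) : ℕ :=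
  2 * ∑ p ∈ Finset.range ((i + 1) / 2), hodge p + (if Even i then plus + minus else 0)

/-- What enters of the cohomology `H^i` of a projective smooth scheme `X` over `ℤ[1/N]` in the Hasse-Weil
L-function `L(i; X, s)` and its gamma factor. -/
structure Cohomology (i : ℕ) where
  /-- the integer `N`: good reduction for `p ∤ N` -/
  N : ℕ
  /-- the Hodge numbers `hodge p = h^{p, i - p}` for `2 p < i` -/
  hodge : ℕ → ℕ
  /-- `h^{m,+}` for `i = 2m` -/
  plus : ℕ
  /-- `h^{m,-}` for `i = 2m` -/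
  minus : ℕ
  /-- `P_i(X(p), T)` for `p ∤ N`, and `det(1 - Frob_p T | H^i(X)^{I_p})` for `p ∣ N` -/
  P : ℕ → ℤ[X]
  N_pos : 0 < N
  betti_pos : 0 < bettiOf i hodge plus minus
  const : ∀ p : ℕ, p.Prime → (P p).coeff 0 = 1
  degree_good : ∀ p : ℕ, p.Prime → ¬ p ∣ N → (P p).natDegree = bettiOf i hodge plus minus
  degree_bad : ∀ p : ℕ, p.Prime → p ∣ N → (P p).natDegree ≤ bettiOf i hodge plus minus
  roots_good : ∀ p : ℕ, p.Prime → ¬ p ∣ N → ∀ z : ℂ, aeval z (P p) = 0 →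
    ‖z‖ = (p : ℝ) ^ (-((i : ℝ) / 2))
  roots_bad : ∀ p : ℕ, p.Prime → p ∣ N → ∀ z : ℂ, aeval z (P p) = 0 →
    (p : ℝ) ^ (-(((i : ℝ) + 1) / 2)) ≤ ‖z‖

namespace Cohomology

variable {i : ℕ} (V : Cohomology i)

/-- the Betti number `b_i` -/
def betti : ℕ := bettiOf i V.hodge V.plus V.minus

/-- the L-function (with the factors at the primes dividing `N`) in the half-plane of convergence -/
noncomputable def L (s : ℂ) : ℂ :=
  ∏' p : Nat.Primes, (aeval (((p : ℕ) : ℂ) ^ (-s)) (V.P p))⁻¹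

/-- the gamma factor `Γ_i(s) = ∏_{p<q} Γ_ℂ(s-p)^{h^{p,q}} Γ_ℝ(s-m)^{h^{m,+}} Γ_ℝ(s-m+1)^{h^{m,-}}`, the last
two factors for `i = 2m` only -/
noncomputable def gammaFactor (s : ℂ) : ℂ :=
  (∏ p ∈ Finset.range ((i + 1) / 2), Gammaℂ (s - p) ^ V.hodge p) *
    (if Even i then Gammaℝ (s - (i : ℂ) / 2) ^ V.plus * Gammaℝ (s - (i : ℂ) / 2 + 1) ^ V.minus
      else 1)

/-- the analytic conductor at height `y`, for the conductor `A` -/
noncomputable def analyticConductor (A y : ℝ) : ℝ :=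
  A * ((∏ p ∈ Finset.range ((i + 1) / 2), ((1 + ‖(y : ℂ) * I + ((i : ℂ) / 2 - p)‖) *
    (1 + ‖(y : ℂ) * I + ((i : ℂ) / 2 - p + 1)‖)) ^ V.hodge p) *
    (if Even i then (1 + ‖(y : ℂ) * I + 0‖) ^ V.plus * (1 + ‖(y : ℂ) * I + 1‖) ^ V.minus else 1))

/-- `Λ` is the completed L-function `Λ_A(i; X, s)` (multiplied by `((s - i/2) (s - i/2 - 1))^r`), and it
has the properties (a), (b): it is entire, of finite order, and `Λ(s) = ± Λ(i + 1 - s)`. -/
structure Continued (A : ℝ) (r : ℕ) (Λ : ℂ → ℂ) : Prop where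
  one_le : 1 ≤ A
  r_le : r ≤ V.betti
  entire : Differentiable ℂ Λ
  order : ∃ c ρ : ℝ, ∀ s : ℂ, ‖Λ s‖ ≤ Real.exp (c * (1 + ‖s‖) ^ ρ)
  fe : ∃ ε : ℝ, (ε = 1 ∨ ε = -1) ∧ ∀ s : ℂ, Λ s = ε * Λ (i + 1 - s)
  eq : ∃ σ : ℝ, ∀ s : ℂ, σ ≤ s.re → Λ s = ((s - (i : ℂ) / 2) * (s - (i : ℂ) / 2 - 1)) ^ r *
    ((A : ℂ) ^ (s / 2) * V.gammaFactor s * V.L s)

end Cohomology

/-! ### The powers of the curve `y² = x³ - x` -/

/-- `a_p`: the prime `p` minus the number of the pairs `(x, y)` modulo `p` with `y² = x³ - x` -/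
noncomputable def a (p : ℕ) : ℤ :=
  (p : ℤ) - (((Finset.range p ×ˢ Finset.range p).filter
    (fun xy : ℕ × ℕ => (p : ℤ) ∣ (xy.2 : ℤ) ^ 2 - ((xy.1 : ℤ) ^ 3 - (xy.1 : ℤ)))).card : ℤ)

/-- `α p`, `β p` are the roots of `T² - a_p T + p` for every prime `p ≠ 2` -/
def FrobeniusRoots (α β : ℕ → ℂ) : Prop :=
  ∀ p : ℕ, p.Prime → p ≠ 2 → α p + β p = (a p : ℂ) ∧ α p * β p = p

/-- `P_i(X(p), p^{-s})` for `X = E^g`: the product of `(1 - α^j β^(i-j) p^(-s))` over `0 ≤ j ≤ i`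
with the multiplicities `C(g, j) C(g, i-j)` -/
noncomputable def P (g i : ℕ) (α β : ℂ) (p : ℕ) (s : ℂ) : ℂ :=
  ∏ j ∈ Finset.range (i + 1),
    (1 - α ^ j * β ^ (i - j) * (p : ℂ) ^ (-s)) ^ (g.choose j * g.choose (i - j))

/-- `L` is the continuation of `L(i; E^g, s) = ∏_{p ≠ 2} P_i(X(p), p^{-s})⁻¹` to an entire
function -/
def IsHasseWeil (g i : ℕ) (L : ℂ → ℂ) : Prop :=
  Differentiable ℂ L ∧ ∀ α β : ℕ → ℂ, FrobeniusRoots α β → ∀ s : ℂ, 1 + (i : ℝ) / 2 < s.re →
    HasProd (fun p : {p : ℕ // p.Prime ∧ p ≠ 2} => (P g i (α p) (β p) p s)⁻¹) (L s)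

/-- the conductor `A = 32^N`, `N = ∑_{p < q, p + q = i} h^{p,q}`, `h^{p,q} = C(g, p) C(g, q)` -/
noncomputable def A (g i : ℕ) : ℝ :=
  32 ^ (∑ p ∈ Finset.range ((i + 1) / 2), g.choose p * g.choose (i - p))

/-- the Gamma factor `Γ_i(s) = ∏_{p < q, p + q = i} Γ_ℂ(s - p)^{h^{p,q}}`, `h^{p,q} = C(g, p) C(g, q)`;
here `Γ_ℂ(s) = Γ_ℝ(s) Γ_ℝ(s + 1)` -/
noncomputable def gammaFactor (g i : ℕ) (s : ℂ) : ℂ :=
  ∏ p ∈ Finset.range ((i + 1) / 2), Gammaℂ (s - p) ^ (g.choose p * g.choose (i - p))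

/-- the analytic conductor at height `y`: `A ∏_{p<q} ((1 + |i/2 - p + √-1 y|)
(1 + |i/2 - p + 1 + √-1 y|))^{h^{p,q}}` -/
noncomputable def analyticConductor (g i : ℕ) (y : ℝ) : ℝ :=
  A g i * ∏ p ∈ Finset.range ((i + 1) / 2),
    ((1 + ‖(y : ℂ) * I + ((i : ℂ) / 2 - p)‖) * (1 + ‖(y : ℂ) * I + ((i : ℂ) / 2 - p + 1)‖)) ^
      (g.choose p * g.choose (i - p))

/-- `Λ` is entire and `Λ(s) = A^((s - i/2)/2) Γ_i(s) L(s)` for `Re s > (i - 1)/2` -/
def IsCompleted (g i : ℕ) (L Λ : ℂ → ℂ) : Prop :=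
  Differentiable ℂ Λ ∧ ∀ s : ℂ, ((i : ℝ) - 1) / 2 < s.re →
    Λ s = (A g i : ℂ) ^ ((s - (i : ℂ) / 2) / 2) * gammaFactor g i s * L s

/-! ### Zeros off the line and critical points -/

noncomputable section

variable (x : ℝ) (Λ : ℂ → ℂ)

/-- The zeros of `Λ^(n)` off the line `Re s = x` with ordinate in `(a, b]`. -/
def off (n : ℕ) (a b : ℝ) : Set ℂ := {s : ℂ | iteratedDeriv n Λ s = 0 ∧ s.re ≠ x ∧ a < s.im ∧ s.im ≤ b}

/-- The number of zeros of `Λ^(n)` off the line with ordinate in `(a, b]`, with multiplicity. -/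
def M (n : ℕ) (a b : ℝ) : ℕ := ∑ᶠ s ∈ off x Λ n a b, analyticOrderNatAt (iteratedDeriv n Λ) s

/-- `t` is a critical point of order `j`: `Λ^(j)(x + it) ≠ 0` and `Λ^(j+1)(x + it) = 0`. -/
def IsCritical (j : ℕ) (t : ℝ) : Prop := iteratedDeriv j Λ (x + I * t) ≠ 0 ∧ iteratedDeriv (j + 1) Λ (x + I * t) = 0

open Classical in
/-- The weight of Fourier of a critical point `t` of order `j`: half of the multiplicity (rounded down) of the zero of `Λ^(j+1)`, plus
one if `|Λ^(j)(x + iu)|` has a local minimum at `u = t`. -/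
def weight (j : ℕ) (t : ℝ) : ℕ := analyticOrderNatAt (iteratedDeriv (j + 1) Λ) (x + I * t) / 2 +
  if IsLocalMin (fun u : ℝ => ‖iteratedDeriv j Λ (x + I * u)‖) t then 1 else 0

/-- The number of critical points of order `j` in `(a, b]`, with the weights of Fourier. -/
def V (j : ℕ) (a b : ℝ) : ℕ := ∑ᶠ t ∈ {t : ℝ | a < t ∧ t ≤ b ∧ IsCritical x Λ j t}, weight x Λ j t

/-- The number of critical points of all orders `≥ n` in `(a, b]`, with the weights of Fourier. -/
def W (n : ℕ) (a b : ℝ) : ℕ := ∑ᶠ j : ℕ, V x Λ (n + j) a b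

end

/-- The statements on `Λ` (a completed L-function with critical line `Re s = x`), with the constant `C` and the function `ℓ`. -/
structure FourierPolya (C x : ℝ) (ℓ : ℝ → ℝ) (Λ : ℂ → ℂ) : Prop where
  finite : ∀ (n : ℕ) (a b : ℝ), (off x Λ n a b).Finite ∧ {t : ℝ | a < t ∧ t ≤ b ∧ IsCritical x Λ n t}.Finite ∧
    {j : ℕ | V x Λ j a b ≠ 0}.Finite
  count : ∀ (n : ℕ) (a b : ℝ), a ≤ b → |(M x Λ n a b : ℝ) - 2 * W x Λ n a b| ≤ C * (ℓ a + ℓ b)
  exact : ∀ (n : ℕ) (a b : ℝ), a < b →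
    (∀ s : ℂ, iteratedDeriv n Λ s = 0 → s.re ≠ x → C * ℓ a * (s.re - x) ^ 2 < (s.im - a) ^ 2) →
    (∀ s : ℂ, iteratedDeriv n Λ s = 0 → s.re ≠ x → C * ℓ b * (s.re - x) ^ 2 < (s.im - b) ^ 2) →
    M x Λ n a b = 2 * W x Λ n a b
  near : ∀ (n k : ℕ) (t : ℝ), IsCritical x Λ (n + k) t → weight x Λ (n + k) t ≠ 0 →
    ∃ s : ℂ, iteratedDeriv n Λ s = 0 ∧ s.re ≠ x ∧ |s.im - t| ≤ Real.sqrt (k + 1) * |s.re - x|
  order : ∀ (j : ℕ) (t : ℝ), IsCritical x Λ j t → weight x Λ j t ≠ 0 → (j : ℝ) < C * ℓ t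
  grh : (∀ s : ℂ, Λ s = 0 → s.re = x) ↔ ∀ (j : ℕ) (t : ℝ), IsCritical x Λ j t → weight x Λ j t = 0
  finitely : ∀ n : ℕ, {s : ℂ | iteratedDeriv n Λ s = 0 ∧ s.re ≠ x}.Finite ↔
    {p : ℕ × ℝ | n ≤ p.1 ∧ IsCritical x Λ p.1 p.2 ∧ weight x Λ p.1 p.2 ≠ 0}.Finite

/-- The passage to larger constants, and from the helper files. -/
theorem of_fp7 {C C' h : ℝ} {ℓ : ℝ → ℝ} {Λ : ℂ → ℂ} (hC : C ≤ C') (h0 : ∀ T, 0 ≤ ℓ T)
    (H : Pool.Agent.Zk6.G.FP7 C h ℓ Λ) : FourierPolya C' h ℓ Λ := by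
  have P := H.mono hC h0
  exact ⟨P.finite, P.count, P.exact, P.near, P.order, P.grh, P.finitely⟩

/-- The theorem from the properties of the scaled function. -/
theorem of_ctl {K C h : ℝ} (hK : 0 < K) (hC : Pool.Agent.Zk6.G.CT K ≤ C) {Λ F : ℂ → ℂ} {u : ℂ} {c ℓ : ℝ → ℝ}
    (hctl : Pool.Agent.Zk6.G.Ctl K F c) (hS : Pool.Agent.Zk4.G.Sc.Scl h Λ F u)
    (hlog : ∃ D : ℝ, ∀ y : ℝ, 1 ≤ y → c y ≤ D * (1 + Real.log y)) (hl : ∀ T, c (T / 3) ≤ 2 * ℓ T)
    (h0 : ∀ T, 0 ≤ ℓ T) : FourierPolya C h ℓ Λ := by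
  obtain ⟨D, hD⟩ := hlog
  exact of_fp7 hC h0 (Pool.Agent.Zk6.G.trf7 hS hctl hK (Pool.Agent.Zk4.G.t_Ex hctl.fe)
    (Pool.Agent.Zk6.G.slow_of_log hD) hl)

/-- **The theorem.**  There is one constant `C > 0` such that the statements `FourierPolya` hold

* (I) for the L-function of every `X` in every degree `i`, if it has the continuation and the functional
  equation;
* (II) for `X = E^g`, `g` and `i` arbitrary, `i < 2g` odd, unconditionally (the Betti number is
  `(2 * g).choose i`). -/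
theorem result : ∃ C : ℝ, 0 < C ∧
    (∀ (i : ℕ) (V : Cohomology i) (A : ℝ) (r : ℕ) (Λ : ℂ → ℂ), V.Continued A r Λ →
      FourierPolya C (((i : ℝ) + 1) / 2) (fun y => V.betti + Real.log (V.analyticConductor A y)) Λ) ∧
    (∀ g i : ℕ, Odd i → i < 2 * g →
      ∃ L Λ : ℂ → ℂ, IsHasseWeil g i L ∧ IsCompleted g i L Λ ∧
        (∀ s : ℂ, Λ (conj s) = conj (Λ s)) ∧
        (∃ r : ℕ, r ≤ 1 ∧ ∀ s : ℂ, Λ (i + 1 - s) = (-1) ^ r * Λ s) ∧
        FourierPolya C (((i : ℝ) + 1) / 2) (fun y => (2 * g).choose i + Real.log (analyticConductor g i y)) Λ) := by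
  obtain ⟨K1, hK1, H1⟩ := Pool.Agent.Zk1.FH.coh_ctl
  obtain ⟨K2, hK2, H2⟩ := Pool.Agent.Zk4.G.pow_ctl
  refine ⟨max 1 (max (Pool.Agent.Zk6.G.CT K1) (Pool.Agent.Zk6.G.CT K2)), by positivity, ?_, ?_⟩
  · intro i V A r Λ h
    have hdeg : ∀ p, p.Prime → (V.P p).natDegree ≤
        2 * ∑ p ∈ Finset.range ((i + 1) / 2), V.hodge p + (if Even i then V.plus + V.minus else 0) := by
      intro p hp
      by_cases hpN : p ∣ V.N
      · exact V.degree_bad p hp hpN
      · exact (V.degree_good p hp hpN).le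
    have hroots : ∀ p : ℕ, p.Prime → ∀ z : ℂ, aeval z (V.P p) = 0 → (p : ℝ) ^ (-(((i : ℝ) + 1) / 2)) ≤ ‖z‖ := by
      intro p hp z hz
      by_cases hpN : p ∣ V.N
      · exact V.roots_bad p hp hpN z hz
      · rw [V.roots_good p hp hpN z hz]
        exact Real.rpow_le_rpow_of_exponent_le (by exact_mod_cast hp.one_le) (by linarith)
    obtain ⟨u, c, hu, hctl, hc, hlog, -, hit⟩ := H1 (i := i) (h := V.hodge) (a := V.plus) (b := V.minus)
      (P := V.P) V.betti_pos V.const hdeg hroots h.one_le h.r_le h.entire h.order h.fe h.eq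
    have hx : ((((i : ℝ) + 1) / 2 : ℝ) : ℂ) = ((i : ℂ) + 1) / 2 := by push_cast; rfl
    have hcl : ∀ T, c (T / 3) = 2 * (V.betti : ℝ) + Real.log (V.analyticConductor A T) := by
      intro T
      rw [hc]
      have e : 3 * (T / 3) = T := by ring
      rw [e]
      rfl
    have hlc : ∀ T, 0 ≤ Real.log (V.analyticConductor A T) := by
      intro T
      have h1 := hctl.one (T / 3)
      refine Real.log_nonneg ?_
      unfold Cohomology.analyticConductor
      have hA := h.one_le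
      have h2 : ∀ w : ℂ, 1 ≤ 1 + ‖w‖ := fun w => by linarith [norm_nonneg w]
      have h3 : 1 ≤ ∏ p ∈ Finset.range ((i + 1) / 2), ((1 + ‖(T : ℂ) * I + ((i : ℂ) / 2 - p)‖) *
          (1 + ‖(T : ℂ) * I + ((i : ℂ) / 2 - p + 1)‖)) ^ V.hodge p := by
        refine Finset.prod_induction _ (fun x => (1 : ℝ) ≤ x) (fun a b ha hb => one_le_mul_of_one_le_of_one_le ha hb)
          le_rfl fun p _ => one_le_pow₀ (one_le_mul_of_one_le_of_one_le (h2 _) (h2 _))
      have h4 : (1 : ℝ) ≤ (if Even i then (1 + ‖(T : ℂ) * I + 0‖) ^ V.plus * (1 + ‖(T : ℂ) * I + 1‖) ^ V.minus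
          else 1) := by
        split_ifs
        · exact one_le_mul_of_one_le_of_one_le (one_le_pow₀ (h2 _)) (one_le_pow₀ (h2 _))
        · exact le_rfl
      exact one_le_mul_of_one_le_of_one_le hA (one_le_mul_of_one_le_of_one_le h3 h4)
    refine of_ctl (h := ((i : ℝ) + 1) / 2) hK1 ((le_max_left _ _).trans (le_max_right _ _)) hctl
      ⟨h.entire, hu, fun n z => ?_⟩ hlog (fun T => ?_) (fun T => ?_)
    · rw [hx]
      exact hit n z
    · rw [hcl]
      have := hlc T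
      linarith
    · have h1 := hlc T
      have h2 : (0 : ℝ) ≤ V.betti := Nat.cast_nonneg _
      show 0 ≤ (V.betti : ℝ) + Real.log (V.analyticConductor A T)
      linarith
  · intro g i hi hg
    obtain ⟨m, rfl⟩ := hi
    obtain ⟨Λ, h1, h2, h3, h4, v, c, hv, hctl, hc, hlog, hS⟩ := H2 g m (by omega)
    refine ⟨fun s => Pool.Agent.W355.HW.LL0 g m (s - ((2 * m + 1 : ℕ) : ℂ) / 2), Λ,
      ⟨(Pool.Agent.W355.HW.LL0_diff g m).comp (differentiable_id.sub_const _),
        fun α β hαβ s hs => Pool.Agent.W355.HW.LL0_prod g m α β hαβ s hs⟩, ⟨h1, h2⟩, h3, h4, ?_⟩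
    have hcl : ∀ T, c (T / 3) = 2 * ((2 * g).choose (2 * m + 1) : ℝ) +
        Real.log (analyticConductor g (2 * m + 1) T) := by
      intro T
      rw [hc]
      have e : 3 * (T / 3) = T := by ring
      rw [e]
      rfl
    have hlc : ∀ T, 0 ≤ Real.log (analyticConductor g (2 * m + 1) T) := by
      intro T
      refine Real.log_nonneg ?_
      unfold analyticConductor A
      have h2 : ∀ w : ℂ, 1 ≤ 1 + ‖w‖ := fun w => by linarith [norm_nonneg w]
      refine one_le_mul_of_one_le_of_one_le (one_le_pow₀ (by norm_num)) ?_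
      refine Finset.prod_induction _ (fun x => (1 : ℝ) ≤ x) (fun a b ha hb => one_le_mul_of_one_le_of_one_le ha hb)
          le_rfl fun p _ => one_le_pow₀ (one_le_mul_of_one_le_of_one_le (h2 _) (h2 _))
    refine of_ctl hK2 ((le_max_right _ _).trans (le_max_right _ _)) hctl hS hlog (fun T => ?_) (fun T => ?_)
    · rw [hcl]
      have := hlc T
      linarith
    · have h1 := hlc T
      have h2 : (0 : ℝ) ≤ ((2 * g).choose (2 * m + 1) : ℝ) := Nat.cast_nonneg _
      show 0 ≤ ((2 * g).choose (2 * m + 1) : ℝ) + Real.log (analyticConductor g (2 * m + 1) T)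
      linarith

end Pool.Agent.Results.MP_7193be_nt.FourierPolyaHasseWeil
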