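import Pool.Agent.Zk20.KS.Prod

/-!
# Zeros of the L-functions of the cohomology of Kuga-Sato varieties of full level `q`

The newforms of level `2q²`, of all weights `k = j + 2` and all nebentypus characters modulo `q`, each with
the multiplicity with which it occurs in the cohomology of the fibre powers of the universal elliptic curve
over the modular curve of the group `Γ₀(2) ∩ Γ(q)`, realised on functions on `GL₂(F_q)` with values in the
symmetric tensors of degree `j`, by means of the Hurwitz quaternions.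

For the starting file `NewformsLevel2q` of the pool (helper880; weight 2, level `2q`, functions on `F_q²`)
see there; its modules `Pool.Agent.N880.HQ` are used.
-/

set_option autoImplicit false

open Matrix Module

namespace Pool.Agent.Results.MP_7193be_nt.FullLevelAllWeights

/-- The quadruple `(a, b, c, d)` of integers stands for the Hurwitz quaternion
`a h + b i + c j + d k`, `h = (1 + i + j + k) / 2`; this is its reduced norm. -/
def qnorm (z : ℤ × ℤ × ℤ × ℤ) : ℤ :=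
  z.1 ^ 2 + z.1 * z.2.1 + z.1 * z.2.2.1 + z.1 * z.2.2.2 + z.2.1 ^ 2 + z.2.2.1 ^ 2 + z.2.2.2 ^ 2

section
variable {F : Type} [Field F]

/-- The matrix `I`, image of `i`. -/
def matI (F : Type) [Field F] : Matrix (Fin 2) (Fin 2) F := !![0, 1; -1, 0]

/-- The matrix `J`, image of `j` (here `x² + y² = -1` in `F`). -/
def matJ (x y : F) : Matrix (Fin 2) (Fin 2) F := !![x, y; y, -x]

/-- The matrix of the Hurwitz quaternion `z` over the field `F` (`F_q` or `ℂ` below), of determinant the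
reduced norm; `i, j, k` go to `I, J, I J`. -/
def qmat (x y : F) (z : ℤ × ℤ × ℤ × ℤ) : Matrix (Fin 2) (Fin 2) F :=
  (z.1 : F) • ((2 : F)⁻¹ • (1 + matI F + matJ x y + matI F * matJ x y)) +
    (z.2.1 : F) • matI F + (z.2.2.1 : F) • matJ x y + (z.2.2.2 : F) • (matI F * matJ x y)

end

/-- Functions of a matrix `g` over `F_q` and of an index `a : {0, 1}^j`; for fixed `g` a tensor in
`(ℂ²)^(⊗ j)`. -/
abbrev Fun (q j : ℕ) : Type := Matrix (Fin 2) (Fin 2) (ZMod q) × (Fin j → Fin 2) → ℂ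

/-- `(R_z Φ)(g) = ρ(z) Φ(g z)`, where `ρ(z)` is the action of the quaternion `z` on `(ℂ²)^(⊗ j)`. -/
noncomputable def act {q j : ℕ} (x y : ZMod q) [Fact q.Prime] (z : ℤ × ℤ × ℤ × ℤ) (Φ : Fun q j) : Fun q j :=
  fun p => ∑ b : Fin j → Fin 2,
    (∏ i, qmat Complex.I 0 z (p.2 i) (b i)) * Φ (p.1 * qmat x y z, b)

/-- Forms of weight `j + 2`: functions on `GL₂(F_q)` with values in the symmetric tensors of degree `j`,
invariant under the 24 Hurwitz units, with vanishing sums over the sets `{g : v g = w}`, the cosets of the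
mirabolic subgroups (and over the sets `{g : det g = d}`, if `j = 0`). -/
structure IsForm {q : ℕ} [Fact q.Prime] (x y : ZMod q) (j : ℕ) (Φ : Fun q j) : Prop where
  supp : ∀ g a, g.det = 0 → Φ (g, a) = 0
  symm : ∀ (g : Matrix (Fin 2) (Fin 2) (ZMod q)) (a b : Fin j → Fin 2),
    ∑ i, (a i : ℕ) = ∑ i, (b i : ℕ) → Φ (g, a) = Φ (g, b)
  unit : ∀ z : ℤ × ℤ × ℤ × ℤ, qnorm z = 1 → act x y z Φ = Φ
  new : ∀ (v w : Fin 2 → ZMod q) (a : Fin j → Fin 2), w ≠ 0 →
    ∑ g : Matrix (Fin 2) (Fin 2) (ZMod q), (if v ᵥ* g = w then Φ (g, a) else 0) = 0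
  cusp : j = 0 → ∀ (d : ZMod q) (a : Fin j → Fin 2),
    ∑ g : Matrix (Fin 2) (Fin 2) (ZMod q), (if g.det = d then Φ (g, a) else 0) = 0

/-! ### comparison with the helper files -/

section bridge
open Pool.Agent.N880.HQ (Hur mat S mem_S)
open Pool.Agent.Zk20.KS (XY A0 UInv R R_apply T T_apply')

/-- the quadruple as an element of `Hur` -/
def toHur : (ℤ × ℤ × ℤ × ℤ) ≃ Hur where
  toFun z := ⟨z.1, z.2.1, z.2.2.1, z.2.2.2⟩
  invFun h := (h.a, h.b, h.c, h.d)
  left_inv _ := rfl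
  right_inv _ := rfl

lemma qnorm_eq (z : ℤ × ℤ × ℤ × ℤ) : qnorm z = Hur.nrm (toHur z) := rfl

lemma qmat_eq {F : Type} [Field F] (x y : F) (z : ℤ × ℤ × ℤ × ℤ) :
    qmat x y z = mat x y (toHur z) := by
  ext i j
  fin_cases i <;> fin_cases j <;>
    simp [qmat, matI, matJ, mat, toHur] <;> ring

lemma act_eq {q j : ℕ} [Fact q.Prime] (P : XY q) (z : ℤ × ℤ × ℤ × ℤ) (Φ : Fun q j) :
    act P.x P.y z Φ = R P.act j (toHur z) Φ := by
  funext p
  rw [R_apply]
  unfold act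
  refine Finset.sum_congr rfl fun b _ => ?_
  rw [P.act_act, XY.m, ← qmat_eq]
  congr 1
  unfold Pool.Agent.Zk20.KS.rho Pool.Agent.Zk20.KS.cm
  refine Finset.prod_congr rfl fun i _ => ?_
  rw [qmat_eq]

lemma isForm_iff {q : ℕ} [Fact q.Prime] (P : XY q) (j : ℕ) (Φ : Fun q j) :
    IsForm P.x P.y j Φ ↔ Φ ∈ A0 P j := by
  constructor
  · rintro ⟨h1, h2, h3, h4, h5⟩
    refine ⟨h1, fun g a b h => h2 g a b h, fun u hu => ?_, h4, h5⟩
    have h6 := h3 (toHur.symm u) (by rw [qnorm_eq, Equiv.apply_symm_apply]; simpa using mem_S.1 hu)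
    rwa [act_eq, Equiv.apply_symm_apply] at h6
  · rintro ⟨h1, h2, h3, h4, h5⟩
    refine ⟨h1, fun g a b h => h2 g a b h, fun z hz => ?_, h4, h5⟩
    rw [act_eq]
    exact h3 _ (mem_S.2 (by rw [← qnorm_eq, hz]; rfl))

lemma two_ne_of {q : ℕ} [Fact q.Prime] (hq : 3 ≤ q) : (2 : ZMod q) ≠ 0 := by
  intro h
  have : ((2 : ℕ) : ZMod q) = 0 := by exact_mod_cast h
  rw [ZMod.natCast_eq_zero_iff] at this
  have := Nat.le_of_dvd (by norm_num) this
  omega

end bridge

/-- The space of forms of weight `j + 2`. -/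
def Forms {q : ℕ} [Fact q.Prime] (x y : ZMod q) (j : ℕ) : Submodule ℂ (Fun q j) where
  carrier := {Φ | IsForm x y j Φ}
  zero_mem' := by
    refine ⟨fun _ _ _ => rfl, fun _ _ _ _ => rfl, fun z _ => ?_, fun v w a _ => ?_, fun _ d a => ?_⟩
    · funext p
      simp [act]
    · simp
    · simp
  add_mem' := by
    rintro Φ Ψ ⟨a1, a2, a3, a4, a5⟩ ⟨b1, b2, b3, b4, b5⟩
    refine ⟨fun g a h => ?_, fun g a b h => ?_, fun z hz => ?_, fun v w a hw => ?_, fun hj d a => ?_⟩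
    · rw [Pi.add_apply, a1 g a h, b1 g a h, add_zero]
    · rw [Pi.add_apply, Pi.add_apply, a2 g a b h, b2 g a b h]
    · have h1 : act x y z (Φ + Ψ) = act x y z Φ + act x y z Ψ := by
        funext p
        simp only [act, Pi.add_apply, mul_add, Finset.sum_add_distrib]
      rw [h1, a3 z hz, b3 z hz]
    · rw [Pool.Agent.Zk20.KS.sum_ite_add, a4 v w a hw, b4 v w a hw, add_zero]
    · rw [Pool.Agent.Zk20.KS.sum_ite_add, a5 hj d a, b5 hj d a, add_zero]
  smul_mem' := by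
    rintro c Φ ⟨a1, a2, a3, a4, a5⟩
    refine ⟨fun g a h => ?_, fun g a b h => ?_, fun z hz => ?_, fun v w a hw => ?_, fun hj d a => ?_⟩
    · rw [Pi.smul_apply, a1 g a h, smul_zero]
    · rw [Pi.smul_apply, Pi.smul_apply, a2 g a b h]
    · have h1 : act x y z (c • Φ) = c • act x y z Φ := by
        funext p
        simp only [act, Pi.smul_apply, smul_eq_mul, Finset.mul_sum]
        exact Finset.sum_congr rfl fun b _ => by ring
      rw [h1, a3 z hz]
    · rw [Pool.Agent.Zk20.KS.sum_ite_smul, a4 v w a hw, mul_zero]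
    · rw [Pool.Agent.Zk20.KS.sum_ite_smul, a5 hj d a, mul_zero]

/-- The Hecke operator `T_n = (1/24) ∑ R_z`, the sum over the Hurwitz quaternions `z` of norm `n`. -/
noncomputable def hecke {q j : ℕ} [Fact q.Prime] (x y : ZMod q) (n : ℕ) (Φ : Fun q j) : Fun q j :=
  fun p => (1 / 24 : ℂ) * ∑ᶠ z ∈ {z : ℤ × ℤ × ℤ × ℤ | qnorm z = n}, act x y z Φ p

/-- The completed L-function `(√(2q²) / 2π)^s Γ(s) F(s)`. -/
noncomputable def completed (q : ℕ) (F : ℂ → ℂ) (s : ℂ) : ℂ :=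
  ((Real.sqrt 2 * q / (2 * Real.pi) : ℝ) : ℂ) ^ s * Complex.Gamma s * F s

/-- The zeros `s` of `F` with `T < Im s ≤ 2 T`. -/
def zeroSet (F : ℂ → ℂ) (T : ℝ) : Set ℂ := {s : ℂ | T < s.im ∧ s.im ≤ 2 * T ∧ F s = 0}

/-- Their number, counted with multiplicity. -/
noncomputable def numZeros (F : ℂ → ℂ) (T : ℝ) : ℕ := ∑ᶠ s ∈ zeroSet F T, analyticOrderNatAt F s

/-- The number of distinct ones. -/
noncomputable def numDistinct (F : ℂ → ℂ) (T : ℝ) : ℕ := (zeroSet F T).ncard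

/-- The number of those which are simple and lie on the line `Re s = c`. -/
noncomputable def numSimpleOnLine (c : ℝ) (F : ℂ → ℂ) (T : ℝ) : ℕ :=
  {s : ℂ | s ∈ zeroSet F T ∧ s.re = c ∧ analyticOrderNatAt F s = 1}.ncard

/-- The number of those which lie on the line `Re s = c`, counted with multiplicity. -/
noncomputable def numOnLine (c : ℝ) (F : ℂ → ℂ) (T : ℝ) : ℕ :=
  ∑ᶠ s ∈ {s : ℂ | s ∈ zeroSet F T ∧ s.re = c}, analyticOrderNatAt F s

/-- `b` is a basis of the space of forms which consists of joint eigenfunctions of all the Hecke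
operators, with eigenvalues `lam k n`. -/
def IsEigenbasis {q : ℕ} [Fact q.Prime] {x y : ZMod q} {j g : ℕ} (b : Basis (Fin g) ℂ (Forms x y j))
    (lam : Fin g → ℕ → ℂ) : Prop :=
  ∀ k n, hecke x y n (b k) = lam k n • ((b k : Forms x y j) : Fun q j)

/-- `F` is entire and not identically zero, `F(s) = ∑ a(n) n^(-s)` for `Re s > (j + 9) / 2`, and
`Λ(s) = w conj Λ(j + 2 - conj s)`, `|w| = 1`, for the completed function `Λ` (level `2q²`, weight `j + 2`). -/
structure IsLFunction (q j : ℕ) (a : ℕ → ℂ) (F : ℂ → ℂ) : Prop where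
  entire : Differentiable ℂ F
  series : ∀ s : ℂ, (9 + j : ℝ) / 2 < s.re → F s = ∑' n : ℕ, a n * (n : ℂ) ^ (-s)
  fe : ∃ w : ℂ, ‖w‖ = 1 ∧ ∀ s : ℂ, s.im ≠ 0 → completed q F s =
    w * (starRingEnd ℂ) (completed q F ((j : ℂ) + 2 - (starRingEnd ℂ) s))
  ne : ∃ s, F s ≠ 0

/-- Of all the zeros of the functions `F k` with `T < Im s ≤ 2T`, at least 67.25% are simple and
on the line `Re s = (j + 2) / 2`, and at least 83.625% are distinct; there are at least
`g T (log q) / 5` zeros. -/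
structure ManyOnLine (q j : ℕ) {g : ℕ} (F : Fin g → ℂ → ℂ) (T : ℝ) : Prop where
  simple : 0.6725 * ∑ k, (numZeros (F k) T : ℝ) ≤
    ∑ k, (numSimpleOnLine (((j : ℝ) + 2) / 2) (F k) T : ℝ)
  distinct : 0.83625 * ∑ k, (numZeros (F k) T : ℝ) ≤ ∑ k, (numDistinct (F k) T : ℝ)
  lower : (g : ℝ) * T * Real.log q / 5 ≤ ∑ k, (numZeros (F k) T : ℝ)

/-- The L-function in degree `i`: the product over the `r ≥ 0` with `2 r + 1 ≤ i` of the
`∏_k F_{j, k}(s - r)`, `j = i - 1 - 2 r`, to the power `m r`.  It belongs to a sum of `m r` copies of the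
Tate twist by `-r` of the cohomology of weight `j + 1` of the forms of weight `j + 2`. -/
noncomputable def degreeL (i : ℕ) (m g : ℕ → ℕ) (F : (j : ℕ) → Fin (g j) → ℂ → ℂ) (s : ℂ) : ℂ :=
  ∏ r ∈ Finset.range ((i + 1) / 2), ∏ k, F (i - 1 - 2 * r) k (s - r) ^ m r

/-- The completed L-function in degree `i`. -/
noncomputable def degreeCompleted (q i : ℕ) (m g : ℕ → ℕ) (F : (j : ℕ) → Fin (g j) → ℂ → ℂ) (s : ℂ) : ℂ :=
  ∏ r ∈ Finset.range ((i + 1) / 2), ∏ k, completed q (F (i - 1 - 2 * r) k) (s - r) ^ m r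

/-- The properties of the L-function in degree `i`: it is entire, its completed function satisfies
`Λ(s) = w conj Λ(i + 1 - conj s)`, `|w| = 1`, and of its zeros with `T < Im s ≤ 2T`, counted with
multiplicity, at least 67.25% are on the line `Re s = (i + 1) / 2`. -/
structure DegreeStatement (q i : ℕ) (m g : ℕ → ℕ) (F : (j : ℕ) → Fin (g j) → ℂ → ℂ) (T : ℝ) : Prop where
  entire : Differentiable ℂ (degreeL i m g F)
  fe : ∃ w : ℂ, ‖w‖ = 1 ∧ ∀ s : ℂ, s.im ≠ 0 → degreeCompleted q i m g F s =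
    w * (starRingEnd ℂ) (degreeCompleted q i m g F ((i : ℂ) + 1 - (starRingEnd ℂ) s))
  onLine : 0.6725 * (numZeros (degreeL i m g F) T : ℝ) ≤
    numOnLine (((i : ℝ) + 1) / 2) (degreeL i m g F) T
  lower : ∑ r ∈ Finset.range ((i + 1) / 2), (m r : ℝ) * ((g (i - 1 - 2 * r) : ℝ) * T * Real.log q / 5) ≤
    (numZeros (degreeL i m g F) T : ℝ)

section bridge
open Pool.Agent.N880.HQ (Hur mat S mem_S)
open Pool.Agent.Zk20.KS (XY A0 UInv R R_apply T T_apply')

lemma Forms_eq {q : ℕ} [Fact q.Prime] (P : XY q) (j : ℕ) : Forms P.x P.y j = A0 P j := by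
  ext Φ
  exact isForm_iff P j Φ

lemma hecke_eq {q j : ℕ} [Fact q.Prime] (P : XY q) (n : ℕ) (Φ : Fun q j) :
    hecke P.x P.y n Φ = T P.act j n Φ := by
  funext p
  unfold hecke
  rw [T_apply']
  congr 1
  have h : {z : ℤ × ℤ × ℤ × ℤ | qnorm z = n} = ((S n).map toHur.symm.toEmbedding : Set _) := by
    ext z
    rw [Set.mem_ofPred_eq, Finset.mem_coe, Finset.mem_map_equiv, Equiv.symm_symm, mem_S, qnorm_eq]
  rw [h, finsum_mem_coe_finset, Finset.sum_map]
  refine Finset.sum_congr rfl fun α _ => ?_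
  rw [Equiv.coe_toEmbedding, act_eq, Equiv.apply_symm_apply]

/-- the functional equation in degree `i` -/
lemma degree_fe {q : ℕ} (i : ℕ) (m g : ℕ → ℕ) (F : (j : ℕ) → Fin (g j) → ℂ → ℂ)
    (lam : (j : ℕ) → Fin (g j) → ℕ → ℂ)
    (hF : ∀ j, j + 1 ≤ i → ∀ k, IsLFunction q j (lam j k) (F j k)) :
    ∃ w : ℂ, ‖w‖ = 1 ∧ ∀ s : ℂ, s.im ≠ 0 → degreeCompleted q i m g F s =
      w * (starRingEnd ℂ) (degreeCompleted q i m g F ((i : ℂ) + 1 - (starRingEnd ℂ) s)) := by
  classical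
  have hw : ∀ (r : ℕ) (k : Fin (g (i - 1 - 2 * r))), ∃ w : ℂ, ‖w‖ = 1 ∧
      (r ∈ Finset.range ((i + 1) / 2) → ∀ s : ℂ, s.im ≠ 0 →
        completed q (F (i - 1 - 2 * r) k) (s - r) = w * (starRingEnd ℂ)
          (completed q (F (i - 1 - 2 * r) k) ((i : ℂ) + 1 - (starRingEnd ℂ) s - r))) := by
    intro r k
    by_cases hr : r ∈ Finset.range ((i + 1) / 2)
    · have hr' := Finset.mem_range.1 hr
      obtain ⟨w, hw, h⟩ := (hF (i - 1 - 2 * r) (by omega) k).fe
      refine ⟨w, hw, fun _ s hs => ?_⟩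
      rw [h (s - r) (by simpa using hs)]
      congr 3
      have h1 : (i - 1 - 2 * r) + 1 + 2 * r = i := by omega
      have h2 : (((i - 1 - 2 * r : ℕ) : ℂ) + 1 + 2 * r) = i := by exact_mod_cast h1
      rw [map_sub, map_natCast]
      linear_combination h2
    · exact ⟨1, norm_one, fun h => absurd h hr⟩
  choose w hw1 hw2 using hw
  refine ⟨∏ r ∈ Finset.range ((i + 1) / 2), ∏ k, w r k ^ m r, ?_, fun s hs => ?_⟩
  · rw [norm_prod]
    refine Finset.prod_eq_one fun r _ => ?_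
    rw [norm_prod]
    exact Finset.prod_eq_one fun k _ => by rw [norm_pow, hw1, one_pow]
  · unfold degreeCompleted
    rw [map_prod, ← Finset.prod_mul_distrib]
    refine Finset.prod_congr rfl fun r hr => ?_
    rw [map_prod, ← Finset.prod_mul_distrib]
    refine Finset.prod_congr rfl fun k _ => ?_
    rw [hw2 r k hr s hs, mul_pow, map_pow]

end bridge

/-- **Theorem.** For every `J` there are `η > 0` and `q₀` such that for every prime `q ≥ q₀` (and
`x² + y² = -1` in `ZMod q`) the following holds.  For `j ≤ J` the space of forms of weight `j + 2` has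
dimension `(j + 1) (q² - 1) (q² - q) / 24 - O(q³)`; it has a basis of joint eigenfunctions of the Hecke
operators.  For all such bases, with eigenvalues `λ_{j, k}(n)`, the L-functions
`L_{j, k}(s) = ∑ λ_{j, k}(n) n^(-s)` are entire, satisfy a functional equation `s ↦ j + 2 - s`, and for
`40 (log q)² ≤ T ≤ q^η` at least 67.25% of all their zeros with `T < Im s ≤ 2T` are simple and lie on
`Re s = (j + 2) / 2`; and for every `i ≤ J + 1` and all multiplicities `m` at least 67.25% of the zeros of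
the L-function in degree `i` with `T < Im s ≤ 2T` lie on `Re s = (i + 1) / 2`. -/
theorem result (J : ℕ) : ∃ η q₀ : ℝ, 0 < η ∧ ∀ (q : ℕ) [Fact q.Prime], q₀ ≤ q →
    ∀ x y : ZMod q, x ^ 2 + y ^ 2 = -1 →
    (∀ j : ℕ, finrank ℂ (Forms x y j) ≤ (j + 1 : ℝ) * (((q : ℝ) ^ 2 - 1) * ((q : ℝ) ^ 2 - q)) / 24 ∧
      (j + 1 : ℝ) * (((q : ℝ) ^ 2 - 1) * ((q : ℝ) ^ 2 - q)) / 24 - 3 * 2 ^ j * (q : ℝ) ^ 3 ≤
        finrank ℂ (Forms x y j)) ∧
    (∀ j : ℕ, ∃ (g : ℕ) (b : Basis (Fin g) ℂ (Forms x y j)) (lam : Fin g → ℕ → ℂ),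
      IsEigenbasis b lam) ∧
    ∀ (g : ℕ → ℕ) (b : (j : ℕ) → Basis (Fin (g j)) ℂ (Forms x y j))
      (lam : (j : ℕ) → Fin (g j) → ℕ → ℂ), (∀ j, IsEigenbasis (b j) (lam j)) →
      ∃ F : (j : ℕ) → Fin (g j) → ℂ → ℂ,
        (∀ j ≤ J, ∀ k, IsLFunction q j (lam j k) (F j k)) ∧
        ∀ T : ℝ, 40 * Real.log q ^ 2 ≤ T → T ≤ (q : ℝ) ^ η →
          (∀ j ≤ J, ManyOnLine q j (F j) T) ∧
          ∀ i ≤ J + 1, ∀ m : ℕ → ℕ, DegreeStatement q i m g F T := by
  obtain ⟨η, q₀, hη, hq₀, hmain⟩ := Pool.Agent.Zk20.KS.bodyJ J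
  refine ⟨η, q₀, hη, ?_⟩
  intro q _ hq x y hxy
  have hqp : q.Prime := Fact.out
  have hq25 : (25 : ℝ) ≤ q := hq₀.trans hq
  have hqn : 25 ≤ q := by exact_mod_cast hq25
  set P : Pool.Agent.Zk20.KS.XY q := ⟨x, y, two_ne_of (by omega), hxy⟩ with hP
  have hE : ∀ j, Forms x y j = Pool.Agent.Zk20.KS.A0 P j := fun j => Forms_eq P j
  have hgl : (Pool.Agent.Zk20.KS.gl q : ℝ) = ((q : ℝ) ^ 2 - 1) * ((q : ℝ) ^ 2 - q) := by
    have hq1 : 1 ≤ q ^ 2 := Nat.one_le_pow _ _ (by omega)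
    have hqq : q ≤ q ^ 2 := Nat.le_self_pow (by norm_num) q
    rw [Pool.Agent.Zk20.KS.gl_eq]
    push_cast [Nat.cast_sub hq1, Nat.cast_sub hqq]
    ring
  refine ⟨?_, ?_, ?_⟩
  · intro j
    rw [hE j]
    have h1 := Pool.Agent.Zk20.KS.finrank_A0 (j := j) P (by omega)
    have h2 : ((finrank ℂ (Pool.Agent.Zk20.KS.A0 P j) : ℕ) : ℝ) ≤
        (Pool.Agent.Zk20.KS.gl q : ℝ) * ((j : ℝ) + 1) / 24 := by
      rw [← Pool.Agent.Zk20.KS.finrank_UI P (by omega)]
      have : finrank ℂ (Pool.Agent.Zk20.KS.A0 P j) ≤ finrank ℂ (Pool.Agent.Zk20.KS.UI P j) := by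
        apply Submodule.finrank_mono
        intro Φ hΦ
        exact ⟨hΦ.1, hΦ.2.1, hΦ.2.2.1⟩
      exact_mod_cast this
    rw [hgl] at h1 h2
    have hEb : (((q : ℝ) + 1) * (q : ℝ) ^ 2 + q) * 2 ^ j ≤ 3 * (q : ℝ) ^ 3 * 2 ^ j := by
      apply mul_le_mul_of_nonneg_right _ (by positivity)
      have hq0 : (0 : ℝ) < q := by linarith
      nlinarith [sq_nonneg ((q : ℝ) - 1), mul_pos hq0 hq0, mul_pos (mul_pos hq0 hq0) hq0]
    constructor
    · linarith
    · linarith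
  · intro j
    have hex : ∃ (g : ℕ) (b : Basis (Fin g) ℂ (Pool.Agent.Zk20.KS.A0 P j)) (lam : Fin g → ℕ → ℂ),
        ∀ k n, Pool.Agent.Zk20.KS.T P.act j n ((b k : Pool.Agent.Zk20.KS.A0 P j) : Fun q j) =
          lam k n • ((b k : Pool.Agent.Zk20.KS.A0 P j) : Fun q j) :=
      ⟨_, Pool.Agent.Zk20.KS.exists_eigenbasis P j rfl⟩
    rw [← hE j] at hex
    obtain ⟨g, b, lam, hb⟩ := hex
    exact ⟨g, b, lam, fun k n => by rw [hecke_eq P n]; exact hb k n⟩
  · intro g b lam hb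
    have hj : ∀ j, ∃ F : Fin (g j) → ℂ → ℂ, j ≤ J →
        (∀ k, Pool.Agent.Zk20.KS.Facts q j (lam j k) (F k)) ∧
        ∀ T : ℝ, 40 * Real.log q ^ 2 ≤ T → T ≤ (q : ℝ) ^ η →
          Pool.Agent.Zk20.KS.Ineq q j (g j) F T := by
      intro j
      by_cases h : j ≤ J
      · have h1 := hmain j h q P hq (g j)
        rw [← hE j] at h1
        obtain ⟨F, h2, h3⟩ := h1 (b j) (lam j) (fun k n => by
          rw [← hecke_eq P n]
          exact hb j k n)
        exact ⟨F, fun _ => ⟨h2, h3⟩⟩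
      · exact ⟨fun _ _ => 0, fun h1 => absurd h1 h⟩
    choose F hF using hj
    have hL : ∀ j ≤ J, ∀ k, IsLFunction q j (lam j k) (F j k) := fun j h k =>
      ⟨((hF j h).1 k).diff, ((hF j h).1 k).ds, ((hF j h).1 k).fe, ((hF j h).1 k).ne⟩
    refine ⟨F, hL, ?_⟩
    intro T hT1 hT2
    have hI : ∀ j ≤ J, Pool.Agent.Zk20.KS.Ineq q j (g j) (F j) T := fun j h => (hF j h).2 T hT1 hT2
    have hT10 : 10 ≤ T := by
      have hL1 : 1 ≤ Real.log q := by
        rw [Real.le_log_iff_exp_le (by linarith)]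
        linarith [Real.exp_one_lt_d9]
      nlinarith
    refine ⟨fun j h => ⟨(hI j h).s, (hI j h).d, (hI j h).low⟩, ?_⟩
    intro i hi m
    obtain ⟨h1, h2, h3⟩ := Pool.Agent.Zk20.KS.LI_ineq (q := q) i m g F lam hT10
      (fun j h => (hF j (by omega)).1) (fun j h => hI j (by omega))
    exact ⟨h1, degree_fe i m g F lam (fun j h k => hL j (by omega) k), h2, h3⟩

end Pool.Agent.Results.MP_7193be_nt.FullLevelAllWeights
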