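import Pool.Agent.Zk2.LX.U
import Pool.Agent.Zk4.Cb
import Pool.Agent.Zk3.WI.Asy
import Pool.Agent.Zk1.WM.Brd
import Pool.Agent.Zk1.WM.Nf
import Pool.Agent.Zk6.HM.Mem

/-!
# MP_7193be_nt: the index of Weil's quadratic form for Hasse-Weil L-functions

Let `Λ` be the completed L-function `Λ_A(i; X, s)`, with critical line `Re s = (i + 1)/2`, for which parts (a), (b) of
the problem hold.  Let `W(f) = ∑_ρ m(ρ) Mf(ρ) conj(Mf(i + 1 - conj ρ))` be Weil's quadratic form: the sum over the zeros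
`ρ` of `Λ` with their multiplicities, `Mf(s) = ∫ f(x) exp((s - (i + 1)/2) x) dx`.  By Weil's criterion part (d) is
equivalent to `W(f) ≥ 0` for all test functions `f`; only the length `L` of the interval in which `f` is supported
matters.  Let `N(L)` be the number of negative squares of `W` at length `L`, and let `P(T)` be the largest number of
zeros with `Re ρ ≥ (i + 1)/2 + exp(-T)`, `|Im ρ| ≤ T` and mutual distances at least `exp(-T)`.  Part (d) says that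
`N(L) = 0` for all `L`, or that `P(T) = 0` for all `T`.

Let `D` be the degree, `Q` the conductor and `r` the order of the pole at `s = i/2 + 1` (`0` if `i` is odd).

* `W(f) ≥ ∫ |f|²` if `(D + 2r + δ) exp(L/2) + C ≤ log Q`: unconditionally `N(L) = 0` up to the length
  `L = 2 log log Q - O(1)`.
* `N(L) ≤ P(T)` for all `L > 0`, with `T = C (exp((D + 2r + δ) exp(L/2)) / Q)^(1/D)`.
* `N(L) ≥ P(exp(cL))` for `L ≥ C log 3Q`.
* The supremum of `N(L)` over all `L` is the number of the zeros with `Re ρ > (i + 1)/2`.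
* `N(L)` is at least the number of elements of every finite set of isolated zeros `β + iγ` with
  `L ≥ (log log Q(3 + |γ|) + C) / (β - (i + 1)/2)`.  So positivity at length `(2 + ε) log log Q` excludes
  isolated zeros of bounded height near `Re s = i/2 + 1`: for these the first bound is sharp.

All constants depend only on the degree, a bound for the Hodge weights, and the primes at which the local roots are not
known to be pure: they are uniform in the conductor.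

The class contains all L-functions `L(i; X, s)` with (a), (b), and unconditionally all products of L-functions of
newforms (all weights, levels and nebentypus), Hecke L-functions of number fields and Tate twists of the Riemann zeta
function.

Joint work with helper 3 (the upper bound), helper 4 (nets, separated zeros), helper 6 (Hecke characters, products) and
helper 1 (newforms, Euler products).
-/

set_option autoImplicit false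

open Complex MeasureTheory Set Polynomial NumberField
open scoped ComplexConjugate

namespace Pool.Agent.Results.MP_7193be_nt.WeilIndexHasseWeil

/-! ### Completed L-functions of Hasse-Weil type -/

/-- `Λ` is a completed L-function of Hasse-Weil type of weight `i`, degree `D`, conductor `Q`, with the gamma factor
`∏_j Γ_ℝ(s - i/2 + μ_j)` and the Euler product `∏_p P_p(p^(-s))⁻¹`, multiplied by `((s - i/2) (s - i/2 - 1))^r`: it has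
the properties (a), (b) of the problem.  By Deligne's theorem the roots of `P_p` have absolute value `p^(-i/2)` if `X`
has good reduction at `p`, so that the condition `pure` holds with the `N` of the problem, and with `N = 1` if the weight
monodromy conjecture is known for `H^i(X)`. -/
structure HW (i N : ℕ) {D : ℕ} (r : ℕ) (Q : ℝ) (μ : Fin D → ℝ) (P : ℕ → ℂ[X]) (Λ : ℂ → ℂ) : Prop where
  degree_pos : 1 ≤ D
  r_le : r ≤ D
  one_le : 1 ≤ Q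
  gamma : ∀ j, 0 ≤ μ j
  constant : ∀ p : ℕ, p.Prime → (P p).coeff 0 = 1
  degree : ∀ p : ℕ, p.Prime → (P p).natDegree ≤ D
  roots : ∀ p : ℕ, p.Prime → ∀ z : ℂ, (P p).eval z = 0 → (p : ℝ) ^ (-(((i : ℝ) + 1) / 2)) ≤ ‖z‖
  pure : ∀ p : ℕ, p.Prime → ¬ p ∣ N → ∀ z : ℂ, (P p).eval z = 0 → (p : ℝ) ^ (-((i : ℝ) / 2)) ≤ ‖z‖
  entire : Differentiable ℂ Λ
  order : ∃ A ρ : ℝ, ∀ s : ℂ, ‖Λ s‖ ≤ Real.exp (A * (1 + ‖s‖) ^ ρ)
  functional : ∃ ε : ℂ, ‖ε‖ = 1 ∧ ∀ s : ℂ, Λ s = ε * conj (Λ (i + 1 - conj s))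
  euler : ∃ σ : ℝ, ∀ s : ℂ, σ ≤ s.re → ∃ l : ℂ, HasProd (fun p : Nat.Primes => ((P p).eval (((p : ℕ) : ℂ) ^ (-s)))⁻¹) l ∧
    Λ s = ((s - (i : ℂ) / 2) * (s - (i : ℂ) / 2 - 1)) ^ r *
      ((Q : ℂ) ^ ((s - (i : ℂ) / 2) / 2) * ∏ j, Gammaℝ (s - (i : ℂ) / 2 + μ j)) * l

/-! ### Members of the class -/

/-- The `n`-th Fourier coefficient `a(n)` of `f(τ) = ∑ a(n) e^(2πinτ)`. -/
noncomputable def a {N : ℕ} {k : ℤ} (f : CuspForm (CongruenceSubgroup.Gamma1 N : Subgroup (GL (Fin 2) ℝ)) k) (n : ℕ) :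
    ℂ := (UpperHalfPlane.qExpansion 1 f).coeff n

/-- `f` is a newform of weight `k`, level `N`, nebentypus `ψ`; the properties that are used:
`f(γτ) = ψ(d) (cτ+d)^k f(τ)` for `γ = (a b; c d)` in `Γ₀(N)`, `a(1) = 1`, the Hecke relations
`a(mn) = a(m) a(n)` for coprime `m`, `n` and `a(p^(j+2)) = a(p) a(p^(j+1)) - ψ(p) p^(k-1) a(p^j)`,
the Fricke involution maps `f` to a multiple of the form with the conjugate coefficients,
`f(-1/(Nτ)) = η (√N τ/i)^k conj (f(-conj τ))` with `|η| = 1`, and Deligne's theorem: the roots of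
`T² - a(p) T + ψ(p) p^(k-1)` have absolute value at most `p^((k-1)/2)`. -/
structure IsNewform (N : ℕ) (k : ℤ) (ψ : DirichletCharacter ℂ N)
    (f : CuspForm (CongruenceSubgroup.Gamma1 N : Subgroup (GL (Fin 2) ℝ)) k) : Prop where
  neb : ∀ γ : Matrix.SpecialLinearGroup (Fin 2) ℤ, γ ∈ CongruenceSubgroup.Gamma0 N → ∀ τ : UpperHalfPlane,
    f (γ • τ) = ψ ((γ 1 1 : ℤ) : ZMod N) * UpperHalfPlane.denom γ τ ^ k * f τ
  one : a f 1 = 1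
  mul : ∀ m n : ℕ, Nat.Coprime m n → a f (m * n) = a f m * a f n
  pow : ∀ p j : ℕ, p.Prime → a f (p ^ (j + 2)) = a f p * a f (p ^ (j + 1)) -
    ψ (p : ZMod N) * (p : ℂ) ^ (k - 1) * a f (p ^ j)
  fricke : ∃ η : ℂ, ‖η‖ = 1 ∧ ∀ τ τ' τc : UpperHalfPlane, (τ' : ℂ) * ((N : ℂ) * (τ : ℂ)) = -1 →
    (τc : ℂ) = -(starRingEnd ℂ) (τ : ℂ) →
    f τ' = η * (((Real.sqrt N : ℝ) : ℂ) * (τ : ℂ) / Complex.I) ^ k * (starRingEnd ℂ) (f τc)
  deligne : ∀ p : ℕ, p.Prime → ∀ z : ℂ, z ^ 2 - a f p * z + ψ (p : ZMod N) * (p : ℂ) ^ (k - 1) = 0 →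
    ‖z‖ ≤ (p : ℝ) ^ (((k : ℝ) - 1) / 2)

/-- A part `V(f) (-r)` of a cohomology group of degree `i`: a newform `f` of level `N`, weight `k` and nebentypus `ψ`,
and a Tate twist `(-r)` with `k + 2r = i + 1`. -/
structure Part (i : ℕ) where
  N : ℕ
  k : ℕ
  r : ℕ
  ψ : DirichletCharacter ℂ N
  f : CuspForm (CongruenceSubgroup.Gamma1 N : Subgroup (GL (Fin 2) ℝ)) (k : ℤ)
  N_pos : 1 ≤ N
  k_pos : 1 ≤ k
  newform : IsNewform N k ψ f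
  weight : k + 2 * r = i + 1

/-- The polynomial `1 - a(p) p^r T + ψ(p) p^i T^2` of `V(f) (-r)` at `p`. -/
noncomputable def polyF {i : ℕ} (π : Part i) (p : ℕ) : ℂ[X] :=
  1 - C (a π.f p * (p : ℂ) ^ π.r) * X + C (π.ψ (p : ZMod π.N) * (p : ℂ) ^ i) * X ^ 2

section

variable {K : Type} [Field K] [NumberField K]

/-- `ψ` is a primitive (unitary) Hecke character of finite conductor `𝔣` and infinity type `n`, with arbitrary
signs at the real places: `ψ((x)) = ∏_φ (φ(x)/|φ(x)|)^(n_φ)` for totally positive `x ≡ 1` modulo `𝔣`. -/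
structure IsHecke (𝔣 : Ideal (𝓞 K)) (n : (K →+* ℂ) → ℕ) (ψ : Ideal (𝓞 K) →*₀ ℂ) : Prop where
  ne_bot : 𝔣 ≠ ⊥
  supp : ∀ 𝔞 : Ideal (𝓞 K), 𝔞 ≠ ⊥ → (ψ 𝔞 ≠ 0 ↔ IsCoprime 𝔞 𝔣)
  ray : ∀ x : 𝓞 K, x ≠ 0 → x - 1 ∈ 𝔣 → (∀ τ : K →+* ℝ, 0 < τ (x : K)) →
    ψ (Ideal.span {x}) = ∏ φ : K →+* ℂ, (φ (x : K) / (‖φ (x : K)‖ : ℂ)) ^ n φ
  prim : ∀ 𝔤 : Ideal (𝓞 K), 𝔤 ∣ 𝔣 → 𝔤 ≠ 𝔣 → ∃ x : 𝓞 K, x - 1 ∈ 𝔤 ∧ (∀ τ : K →+* ℝ, 0 < τ (x : K)) ∧
    IsCoprime (Ideal.span {x}) 𝔣 ∧ ψ (Ideal.span {x}) ≠ ∏ φ : K →+* ℂ, (φ (x : K) / (‖φ (x : K)‖ : ℂ)) ^ n φ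

/-- The polynomial of the Frobenius at `p` on the representation of degree `[K : ℚ]` which is induced from the Hecke
character `ψ N^(i/2)` of weight `i`: the product over the prime ideals `𝔭` above `p` of
`1 - ψ(𝔭) N(𝔭)^(i/2) T^f`, where `N(𝔭) = p^f`. -/
noncomputable def polyH (i : ℕ) (ψ : Ideal (𝓞 K) →*₀ ℂ) (p : ℕ) : ℂ[X] :=
  ∏ᶠ 𝔭 ∈ {𝔭 : Ideal (𝓞 K) | 𝔭.IsPrime ∧ (p : 𝓞 K) ∈ 𝔭},
    (1 - C (ψ 𝔭 * ((Ideal.absNorm 𝔭 : ℕ) : ℂ) ^ ((i : ℂ) / 2)) * X ^ (𝔭.inertiaDeg ℤ))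

end

/-! ### Weil's form -/

/-- The Mellin transform of `f` in the logarithmic variable, normalised at the centre `(i + 1)/2`. -/
noncomputable def M (i : ℕ) (f : ℝ → ℂ) (s : ℂ) : ℂ := ∫ x : ℝ, f x * cexp ((s - ((i : ℂ) + 1) / 2) * x)

/-- The contribution of the zero `ρ` of `Λ` to Weil's form, with its multiplicity. -/
noncomputable def term (i : ℕ) (Λ : ℂ → ℂ) (f : ℝ → ℂ) (ρ : {ρ : ℂ // Λ ρ = 0}) : ℂ :=
  (analyticOrderNatAt Λ (ρ : ℂ) : ℂ) * (M i f ρ * conj (M i f (i + 1 - conj (ρ : ℂ))))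

/-- Weil's quadratic form. -/
noncomputable def W (i : ℕ) (Λ : ℂ → ℂ) (f : ℝ → ℂ) : ℂ := ∑' ρ : {ρ : ℂ // Λ ρ = 0}, term i Λ f ρ

/-- The test functions: `f` is square integrable, vanishes outside an interval of length `L`, and has
finite logarithmic energy. -/
def Test (i : ℕ) (L : ℝ) (f : ℝ → ℂ) : Prop := MemLp f 2 volume ∧ (∃ c : ℝ, ∀ x : ℝ, x ∉ Icc c (c + L) → f x = 0) ∧
  Integrable fun t : ℝ => Real.log (3 + |t|) * ‖M i f (((i : ℂ) + 1) / 2 + t * I)‖ ^ 2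

/-- The zeros up to the height `T` which are at distance at least `exp (-T)` to the right of the critical line. -/
def Far (i : ℕ) (Λ : ℂ → ℂ) (T : ℝ) : Set ℂ :=
  {ρ : ℂ | Λ ρ = 0 ∧ ((i : ℝ) + 1) / 2 + Real.exp (-T) ≤ ρ.re ∧ |ρ.im| ≤ T}

/-- `P(T) ≥ n`: there are `n` zeros in `Far T` with mutual distances at least `exp (-T)`. -/
def Sep (i : ℕ) (Λ : ℂ → ℂ) (T : ℝ) (n : ℕ) : Prop := ∃ S : Finset ℂ, (∀ ρ ∈ S, ρ ∈ Far i Λ T) ∧
  (∀ ρ ∈ S, ∀ ρ' ∈ S, ρ ≠ ρ' → Real.exp (-T) ≤ ‖ρ - ρ'‖) ∧ S.card = n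

/-- Weil's form at length `L` is decided by the zeros in `Far T`: it is coercive on the functions whose
transform vanishes, for each zero in `Far T`, at a zero of `Λ` within `exp (-T)`. -/
def DecidedBy (i : ℕ) (Λ : ℂ → ℂ) (L T : ℝ) : Prop := ∃ c : ℝ, 0 < c ∧ ∀ f : ℝ → ℂ, Test i L f →
  (∀ ρ ∈ Far i Λ T, ∃ σ : ℂ, Λ σ = 0 ∧ ‖σ - ρ‖ ≤ Real.exp (-T) ∧ M i f σ = 0) → c * ∫ x, ‖f x‖ ^ 2 ≤ (W i Λ f).re

/-- `N(L) ≥ n`, at least `n` negative squares at length `L`: Weil's form is negative definite on a space of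
dimension `n` of test functions of length `L`. -/
def Neg (i : ℕ) (Λ : ℂ → ℂ) (L : ℝ) (n : ℕ) : Prop := ∃ F : Fin n → ℝ → ℂ, ∀ c : Fin n → ℂ, c ≠ 0 →
  Test i L (∑ j, c j • F j) ∧ (W i Λ (∑ j, c j • F j)).re < 0

open Pool.Agent.Y23 (TT Fa N2)
open Pool.Agent.Y23.G
open Pool.Agent.Zk2.LX (U.Te U.tm)

section
variable {i : ℕ} {Λ : ℂ → ℂ}

lemma M_eq (f : ℝ → ℂ) (s : ℂ) : M i f s = TT f (s - (i : ℂ) / 2 - 1 / 2) := by
  unfold M TT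
  congr 1
  funext x
  congr 2
  ring

lemma M_line (f : ℝ → ℂ) (t : ℝ) : M i f (((i : ℂ) + 1) / 2 + t * I) = TT f (t * I) := by
  rw [M_eq]
  congr 1
  ring

lemma Test_iff (L : ℝ) (f : ℝ → ℂ) : Test i L f ↔ Pool.Agent.Zk2.LX.U.Te L f := by
  unfold Test Pool.Agent.Zk2.LX.U.Te
  simp only [M_line]

/-- `Lf` is the L-function `Λ` in the normalisation with centre `1/2` -/
def Nor (i : ℕ) (Λ : ℂ → ℂ) (Lf : LFun) : Prop := ∀ s : ℂ, Lf.X s = Λ (s + (i : ℂ) / 2)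

variable {Lf : LFun}

lemma Nor.X (h : Nor i Λ Lf) (s : ℂ) : Lf.X (s - (i : ℂ) / 2) = Λ s := by
  rw [h, sub_add_cancel]

lemma Nor.entire (h : Nor i Λ Lf) : Differentiable ℂ Λ := by
  have h1 : Λ = fun s => Lf.X (s - (i : ℂ) / 2) := funext fun s => (h.X s).symm
  rw [h1]
  exact (Xd (L := Lf)).comp (differentiable_id.sub_const _)

/-- the zeros -/
noncomputable def Nor.e (h : Nor i Λ Lf) : {ρ : ℂ // Λ ρ = 0} ≃ Zt (D := zd (L := Lf)) where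
  toFun := fun ρ => ⟨(ρ : ℂ) - (i : ℂ) / 2, (h.X _).trans ρ.2⟩
  invFun := fun ρ => ⟨(ρ : ℂ) + (i : ℂ) / 2, (h _).symm.trans ρ.2⟩
  left_inv := fun ρ => Subtype.ext (sub_add_cancel _ _)
  right_inv := fun ρ => Subtype.ext (add_sub_cancel_right _ _)

lemma Nor.ord (h : Nor i Λ Lf) (s : ℂ) : analyticOrderNatAt Λ s = mu (D := zd (L := Lf)) (s - (i : ℂ) / 2) := by
  have h1 : Λ = Lf.X ∘ (fun z => z - (i : ℂ) / 2) := funext fun z => (h.X z).symm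
  rw [mu_X]
  unfold H370.mult
  rw [h1]
  unfold analyticOrderNatAt
  congr 1
  have h2 : AnalyticAt ℂ (fun z : ℂ => z - (i : ℂ) / 2) s := by fun_prop
  refine analyticOrderAt_comp_of_deriv_ne_zero h2 ?_
  have h3 : HasDerivAt (fun z : ℂ => z - (i : ℂ) / 2) 1 s := (hasDerivAt_id s).sub_const _
  rw [h3.deriv]
  exact one_ne_zero


lemma Nor.term (h : Nor i Λ Lf) (f : ℝ → ℂ) (ρ : {ρ : ℂ // Λ ρ = 0}) :
    term i Λ f ρ = Pool.Agent.Zk2.LX.U.tm (D := zd (L := Lf)) f (h.e ρ) := by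
  unfold WeilIndexHasseWeil.term Pool.Agent.Zk2.LX.U.tm
  rw [h.ord, M_eq, M_eq]
  have e1 : ((h.e ρ : Zt (D := zd (L := Lf))) : ℂ) = (ρ : ℂ) - (i : ℂ) / 2 := rfl
  have e2 : (i : ℂ) + 1 - conj (ρ : ℂ) - (i : ℂ) / 2 - 1 / 2 = 1 - conj ((ρ : ℂ) - (i : ℂ) / 2) - 1 / 2 := by
    rw [map_sub, map_div₀, Complex.conj_natCast, Complex.conj_ofNat]
    ring
  rw [e1, e2]

lemma Nor.W (h : Nor i Λ Lf) (f : ℝ → ℂ) :
    W i Λ f = ∑' ρ : Zt (D := zd (L := Lf)), Pool.Agent.Zk2.LX.U.tm (D := zd (L := Lf)) f ρ := by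
  unfold WeilIndexHasseWeil.W
  rw [← h.e.tsum_eq]
  exact tsum_congr fun ρ => h.term f ρ

/-- absolute convergence -/
lemma Nor.conv (h : Nor i Λ Lf) {L : ℝ} (hL : 0 < L) {f : ℝ → ℂ} (hf : Test i L f) :
    Summable (WeilIndexHasseWeil.term i Λ f) ∧ (WeilIndexHasseWeil.W i Λ f).im = 0 := by
  rw [Test_iff] at hf
  have h1 := (Pool.Agent.Zk2.LX.U.Te.sum (D := zd (L := Lf)) (EC := zc (L := Lf)) hL hf).1
  have h2 := Pool.Agent.Zk2.LX.U.Te.real (D := zd (L := Lf)) (EC := zc (L := Lf)) hL hf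
  rw [← h.W] at h2
  refine ⟨?_, h2⟩
  have h3 := h.e.summable_iff.2 h1
  exact h3.congr fun ρ => (h.term f ρ).symm

lemma Nor.pos (h : Nor i Λ Lf) {L : ℝ} (hL : 0 < L) {c : ℝ}
    (hp : ∀ f : ℝ → ℂ, Hd (L / 2) f → c * N2 f ≤ QQ (D := zd (L := Lf)) f) {f : ℝ → ℂ} (hf : Test i L f) :
    c * ∫ x, ‖f x‖ ^ 2 ≤ (WeilIndexHasseWeil.W i Λ f).re := by
  rw [Test_iff] at hf
  rw [h.W]
  exact Pool.Agent.Zk2.LX.U.Te.lower (D := zd (L := Lf)) (EC := zc (L := Lf)) hL (Z := ∅)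
    (fun f h1 _ => hp f h1) hf fun ρ hρ => absurd hρ (Set.notMem_empty _)

lemma add_re' (i : ℕ) (ρ : ℂ) : (ρ + (i : ℂ) / 2).re = ρ.re + (i : ℝ) / 2 := by
  rw [Complex.add_re]
  simp

lemma add_im' (i : ℕ) (ρ : ℂ) : (ρ + (i : ℂ) / 2).im = ρ.im := by
  rw [Complex.add_im]
  simp

lemma Nor.dec (h : Nor i Λ Lf) {L T c : ℝ} (hL : 0 < L) (hc : 0 < c)
    (hp : ∀ f : ℝ → ℂ, Hd (L / 2) f → (∀ ρ : Zt (D := zd (L := Lf)), 1 / 2 + Real.exp (-T) ≤ (ρ : ℂ).re →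
      |(ρ : ℂ).im| ≤ T → ∃ z : ℂ, ‖z - ((ρ : ℂ) - 1 / 2)‖ ≤ Real.exp (-T) ∧ |z.re| ≤ 1 ∧ TT f z = 0) →
      c * N2 f ≤ QQ (D := zd (L := Lf)) f) :
    DecidedBy i Λ L T := by
  refine ⟨c, hc, fun f hf hz => ?_⟩
  rw [Test_iff] at hf
  obtain ⟨k1, c', k2, k3, k4⟩ := Pool.Agent.Zk2.LX.U.Te.sum (D := zd (L := Lf)) (EC := zc (L := Lf)) hL hf
  rw [h.W, k4, Complex.ofReal_re]
  have e4 : N2 (fun x => f (x + c')) = ∫ x, ‖f x‖ ^ 2 := by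
    unfold N2
    exact integral_add_right_eq_self (fun x => ‖f x‖ ^ 2) c'
  rw [← e4]
  refine hp _ k2 fun ρ h3 h4 => ?_
  obtain ⟨σ, h5, h6, h7⟩ := hz ((ρ : ℂ) + (i : ℂ) / 2) ⟨(h _).symm.trans ρ.2, by rw [add_re']; linarith, by
    rw [add_im']
    exact h4⟩
  have h8 : Lf.X (σ - (i : ℂ) / 2) = 0 := (h.X _).trans h5
  refine ⟨σ - (i : ℂ) / 2 - 1 / 2, ?_, ?_, ?_⟩
  · have : σ - (i : ℂ) / 2 - 1 / 2 - ((ρ : ℂ) - 1 / 2) = σ - ((ρ : ℂ) + (i : ℂ) / 2) := by ring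
    rw [this]
    exact h6
  · have := (zd (L := Lf)).strip _ h8
    have e5 : (σ - (i : ℂ) / 2 - 1 / 2).re = (σ - (i : ℂ) / 2).re - 1 / 2 := by
      rw [Complex.sub_re (σ - (i : ℂ) / 2)]
      norm_num
    rw [e5]
    exact this
  · rw [k3, ← M_eq, h7, mul_zero]

lemma Nor.fin (h : Nor i Λ Lf) (T : ℝ) : (Far i Λ T).Finite := by
  have h1 := Pool.Agent.Zk2.LX.U.fin_L (L := Lf) T
  refine Set.Finite.subset (h1.image fun s => s + (i : ℂ) / 2) ?_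
  rintro ρ ⟨h2, _, h4⟩
  refine ⟨ρ - (i : ℂ) / 2, ⟨(h.X _).trans h2, ?_⟩, sub_add_cancel _ _⟩
  have e : (ρ - (i : ℂ) / 2).im = ρ.im := by
    rw [Complex.sub_im]
    simp
  rw [e]
  exact h4

/-- a net -/
lemma Nor.net (h : Nor i Λ Lf) (T : ℝ) : ∃ S : Finset ℂ, (∀ ρ ∈ S, ρ ∈ Far i Λ T) ∧
    (∀ ρ ∈ S, ∀ ρ' ∈ S, ρ ≠ ρ' → Real.exp (-T) ≤ ‖ρ - ρ'‖) ∧
    ∀ ρ ∈ Far i Λ T, ∃ σ ∈ S, ‖σ - ρ‖ ≤ Real.exp (-T) := by
  classical
  have hfin := h.fin T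
  obtain ⟨S, hS1, hS2⟩ := Finset.exists_max_image (hfin.toFinset.powerset.filter fun S : Finset ℂ =>
    ∀ ρ : ℂ, ρ ∈ S → ∀ ρ' : ℂ, ρ' ∈ S → ρ ≠ ρ' → Real.exp (-T) ≤ ‖ρ - ρ'‖) Finset.card
    ⟨∅, Finset.mem_filter.2 ⟨Finset.mem_powerset.2 (Finset.empty_subset _), fun ρ hρ => absurd hρ (Finset.notMem_empty ρ)⟩⟩
  rw [Finset.mem_filter, Finset.mem_powerset] at hS1
  obtain ⟨h1, h2⟩ := hS1
  refine ⟨S, fun ρ hρ => hfin.mem_toFinset.1 (h1 hρ), h2, fun ρ hρ => ?_⟩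
  by_contra hcon
  push Not at hcon
  have hρS : ρ ∉ S := fun h => by
    have := hcon ρ h
    rw [sub_self, norm_zero] at this
    exact absurd this (not_lt.2 (Real.exp_pos _).le)
  have h3 := hS2 (insert ρ S) (by
    rw [Finset.mem_filter, Finset.mem_powerset]
    refine ⟨Finset.insert_subset (hfin.mem_toFinset.2 hρ) h1, fun x hx y hy hxy => ?_⟩
    rcases Finset.mem_insert.1 hx with hx | hx <;> rcases Finset.mem_insert.1 hy with hy | hy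
    · exact absurd (hx.trans hy.symm) hxy
    · rw [hx, norm_sub_rev]
      exact (hcon y hy).le
    · rw [hy]
      exact (hcon x hx).le
    · exact h2 x hx y hy hxy)
  rw [Finset.card_insert_of_notMem hρS] at h3
  omega

/-- the number of negative squares -/
lemma Nor.index (h : Nor i Λ Lf) {L T : ℝ} (hd : DecidedBy i Λ L T) {n : ℕ} (hn : Neg i Λ L n) :
    Sep i Λ T n := by
  obtain ⟨c, hc, hpos⟩ := hd
  obtain ⟨F, hF⟩ := hn
  obtain ⟨S, hS1, hS2, hS3⟩ := h.net T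
  have h1 := Pool.Agent.Zk2.LX.U.index (l := L) (Z := (fun s : ℂ => s - (i : ℂ) / 2) '' (S : Set ℂ))
    (S.finite_toSet.image _)
    (F := F) (fun c hc => (Test_iff (i := i) L _).1 (hF c hc).1) fun c' hc' hz => by
      obtain ⟨k1, k2⟩ := hF c' hc'
      have h3 := hpos _ k1 fun ρ hρ => by
        obtain ⟨σ, hσ1, hσ2⟩ := hS3 ρ hρ
        refine ⟨σ, (hS1 σ hσ1).1, hσ2, ?_⟩
        rw [M_eq]
        exact hz _ ⟨σ, hσ1, rfl⟩
      have h4 : 0 ≤ ∫ x, ‖(∑ j, c' j • F j) x‖ ^ 2 := integral_nonneg fun x => by positivity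
      have h5 := mul_nonneg hc.le h4
      linarith
  rw [Set.ncard_image_of_injective _ fun a b hab => by simpa using hab, Set.ncard_coe_finset] at h1
  obtain ⟨S', hS', hcard⟩ := Finset.exists_subset_card_eq h1
  exact ⟨S', fun ρ hρ => hS1 ρ (hS' hρ), fun ρ hρ ρ' hρ' => hS2 ρ (hS' hρ) ρ' (hS' hρ'), hcard⟩

/-- from negative directions in symmetric intervals -/
lemma Nor.neg (h : Nor i Λ Lf) {L : ℝ} (hL : 0 < L) {ι : Type} [Fintype ι] {n : ℕ} (e : Fin n ≃ ι)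
    (hF : ∃ F : ι → ℝ → ℂ, ∀ c : ι → ℂ, c ≠ 0 → Hd (L / 2) (fun x => ∑ i, c i * F i x) ∧
      QQ (D := zd (L := Lf)) (fun x => ∑ i, c i * F i x) < 0) : Neg i Λ L n := by
  obtain ⟨F, hF⟩ := hF
  refine ⟨fun j => F (e j), fun c hc => ?_⟩
  have hc' : (fun x => c (e.symm x)) ≠ 0 := by
    intro h0
    refine hc (funext fun j => ?_)
    have := congrFun h0 (e j)
    simpa using this
  obtain ⟨k1, k2⟩ := hF _ hc'
  have hfun : (fun x : ℝ => ∑ i, c (e.symm i) * F i x) = ∑ j, c j • F (e j) := by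
    funext x
    rw [Finset.sum_apply, ← e.sum_comp]
    refine Finset.sum_congr rfl fun j _ => ?_
    rw [e.symm_apply_apply]
    rfl
  rw [hfun] at k1 k2
  refine ⟨(Test_iff _ _).2 (Pool.Agent.Zk2.LX.U.Te.of_Hd k1), ?_⟩
  rw [h.W, Pool.Agent.Zk2.LX.U.sum_Hd (D := zd (L := Lf)) (EC := zc (L := Lf)) hL k1, Complex.ofReal_re]
  exact k2


/-- the shift of a finite set -/
noncomputable def sh (i : ℕ) (S : Finset ℂ) : Finset ℂ := S.map ⟨fun s : ℂ => s - (i : ℂ) / 2, fun a b hab => by simpa using hab⟩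

lemma mem_sh {i : ℕ} {S : Finset ℂ} {s : ℂ} (hs : s ∈ sh i S) : ∃ ρ ∈ S, ρ - (i : ℂ) / 2 = s := by
  obtain ⟨ρ, hρ, h⟩ := Finset.mem_map.1 hs
  exact ⟨ρ, hρ, h⟩

lemma sh_re (i : ℕ) (ρ : ℂ) : (ρ - (i : ℂ) / 2).re = ρ.re - (i : ℝ) / 2 := by
  rw [Complex.sub_re]
  simp

lemma sh_im (i : ℕ) (ρ : ℂ) : (ρ - (i : ℂ) / 2).im = ρ.im := by
  rw [Complex.sub_im]
  simp

lemma Nor.negS (h : Nor i Λ Lf) {L : ℝ} (hL : 0 < L) (S : Finset ℂ)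
    (hF : ∃ F : {x // x ∈ sh i S} → ℝ → ℂ, ∀ c : {x // x ∈ sh i S} → ℂ, c ≠ 0 →
      Hd (L / 2) (fun x => ∑ i, c i * F i x) ∧
      QQ (D := zd (L := Lf)) (fun x => ∑ i, c i * F i x) < 0) : Neg i Λ L S.card := by
  have hcard : Fintype.card {x // x ∈ sh i S} = S.card := by
    rw [Fintype.card_coe]
    exact Finset.card_map _
  exact h.neg hL (Fintype.equivFinOfCardEq hcard).symm hF

/-- separated zeros -/
lemma Nor.sep (h : Nor i Λ Lf) {L c : ℝ} (hL : 0 < L)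
    (hg : ∀ S : Finset ℂ,
      (∀ s ∈ S, s ∈ (zd (L := Lf)).Zs ∧ |s.im| ≤ Real.exp (c * L) ∧ Real.exp (-Real.exp (c * L)) ≤ s.re - 1 / 2) →
      (∀ s ∈ S, ∀ s' ∈ S, s ≠ s' → Real.exp (-Real.exp (c * L)) ≤ ‖s - s'‖) →
      ∃ F : {x // x ∈ S} → ℝ → ℂ, ∀ c : {x // x ∈ S} → ℂ, c ≠ 0 →
        Hd (L / 2) (fun x => ∑ i, c i * F i x) ∧ QQ (D := zd (L := Lf)) (fun x => ∑ i, c i * F i x) < 0)
    (S : Finset ℂ) (h1 : ∀ ρ ∈ S, ρ ∈ Far i Λ (Real.exp (c * L)))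
    (h2 : ∀ ρ ∈ S, ∀ ρ' ∈ S, ρ ≠ ρ' → Real.exp (-Real.exp (c * L)) ≤ ‖ρ - ρ'‖) : Neg i Λ L S.card := by
  refine h.negS hL S (hg _ (fun s hs => ?_) fun s hs s' hs' hne => ?_)
  · obtain ⟨ρ, hρ, rfl⟩ := mem_sh hs
    obtain ⟨k1, k2, k3⟩ := h1 ρ hρ
    refine ⟨(h.X _).trans k1, ?_, ?_⟩
    · rw [sh_im]
      exact k3
    · rw [sh_re]
      linarith
  · obtain ⟨ρ, hρ, rfl⟩ := mem_sh hs
    obtain ⟨ρ', hρ', rfl⟩ := mem_sh hs'
    rw [sub_sub_sub_cancel_right]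
    exact h2 ρ hρ ρ' hρ' fun e => hne (by rw [e])

/-- all zeros -/
lemma Nor.all (h : Nor i Λ Lf) (S : Finset ℂ) (hS : ∀ ρ ∈ S, Λ ρ = 0 ∧ ((i : ℝ) + 1) / 2 < ρ.re) :
    ∃ L : ℝ, 0 < L ∧ Neg i Λ L S.card := by
  obtain ⟨l₀, h1⟩ := Pool.Agent.Zk4.C.index_gen_all (D := zd (L := Lf)) (EC := zc (L := Lf)) (sh i S) (by
    intro s hs
    obtain ⟨ρ, hρ, rfl⟩ := mem_sh hs
    obtain ⟨k1, k2⟩ := hS ρ hρ
    refine ⟨(h.X _).trans k1, ?_⟩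
    rw [sh_re]
    linarith)
  exact ⟨max l₀ 1, by positivity, h.negS (by positivity) S (h1 _ (le_max_left _ _))⟩

/-- the supremum -/
lemma Nor.total (h : Nor i Λ Lf) (hd : ∀ L : ℝ, 0 < L → ∃ T : ℝ, DecidedBy i Λ L T) (n : ℕ) :
    (∃ L : ℝ, 0 < L ∧ Neg i Λ L n) ↔ (n : ℕ∞) ≤ {ρ : ℂ | Λ ρ = 0 ∧ ((i : ℝ) + 1) / 2 < ρ.re}.encard := by
  classical
  constructor
  · rintro ⟨L, hL, hn⟩
    obtain ⟨T, hT⟩ := hd L hL
    obtain ⟨S, h1, -, h3⟩ := h.index hT hn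
    rw [← h3, ← Set.encard_coe_eq_coe_finsetCard]
    exact encard_le_encard fun ρ hρ =>
      ⟨(h1 ρ hρ).1, lt_of_lt_of_le (lt_add_of_pos_right _ (Real.exp_pos _)) (h1 ρ hρ).2.1⟩
  · intro h1
    obtain ⟨t, ht, hcard⟩ := exists_subset_encard_eq h1
    have hfin : t.Finite := finite_of_encard_eq_coe hcard
    obtain ⟨L, hL, h2⟩ := h.all hfin.toFinset fun ρ hρ => ht (hfin.mem_toFinset.1 hρ)
    have h3 : hfin.toFinset.card = n := by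
      have := hfin.encard_eq_coe_toFinset_card
      rw [hcard] at this
      exact_mod_cast this.symm
    rw [h3] at h2
    exact ⟨L, hL, h2⟩

/-- isolated zeros -/
lemma Nor.iso (h : Nor i Λ Lf) {C₀ C : ℝ} {K : ℝ → ℝ}
    (hg : ∀ L : ℝ, 1 ≤ L → ∀ (ι : Type) [Fintype ι] (z : ι → Zt (D := zd (L := Lf))),
      Function.Injective z → (∀ i, 1 / 2 < (z i : ℂ).re) →
      (∀ i, C₀ * K (z i : ℂ).im ≤ Real.exp (((z i : ℂ).re - 1 / 2) * L)) →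
      (∀ i, ∀ ρ : Zt (D := zd (L := Lf)), |(ρ : ℂ).im - (z i : ℂ).im| ≤ 33 * L →
        (ρ : ℂ) = z i ∨ (ρ : ℂ) = 1 - conj (z i : ℂ) ∨
          C₀ * K (z i : ℂ).im * Real.exp (|(ρ : ℂ).re - 1 / 2| * L) ≤ Real.exp (((z i : ℂ).re - 1 / 2) * L)) →
      ∃ F : ι → ℝ → ℂ, ∀ c : ι → ℂ, c ≠ 0 → Hd (L / 2) (fun x => ∑ i, c i * F i x) ∧
        QQ (D := zd (L := Lf)) (fun x => ∑ i, c i * F i x) < 0) {Q : ℝ}
    (hK : ∀ t : ℝ, C₀ * K t ≤ C * Real.log (Q * (3 + |t|)))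
    {L : ℝ} (hL : 1 ≤ L) (S : Finset ℂ)
    (hS : ∀ ρ₀ ∈ S, Λ ρ₀ = 0 ∧ ((i : ℝ) + 1) / 2 < ρ₀.re ∧
      C * Real.log (Q * (3 + |ρ₀.im|)) ≤ Real.exp ((ρ₀.re - ((i : ℝ) + 1) / 2) * L) ∧
      ∀ ρ : ℂ, Λ ρ = 0 → |ρ.im - ρ₀.im| ≤ 33 * L → ρ = ρ₀ ∨ ρ = i + 1 - conj ρ₀ ∨
        C * Real.log (Q * (3 + |ρ₀.im|)) * Real.exp (|ρ.re - ((i : ℝ) + 1) / 2| * L) ≤
          Real.exp ((ρ₀.re - ((i : ℝ) + 1) / 2) * L)) : Neg i Λ L S.card := by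
  have hz : ∀ x : {x // x ∈ S}, Lf.X ((x : ℂ) - (i : ℂ) / 2) = 0 := fun x => (h.X _).trans (hS _ x.2).1
  have e1 : ∀ ρ : ℂ, (ρ - (i : ℂ) / 2).re - 1 / 2 = ρ.re - ((i : ℝ) + 1) / 2 := fun ρ => by
    rw [sh_re]
    ring
  obtain ⟨F, hF⟩ := hg L hL {x // x ∈ S} (fun x => ⟨(x : ℂ) - (i : ℂ) / 2, hz x⟩)
    (fun a b hab => by
      have := congrArg Subtype.val hab
      exact Subtype.ext (by simpa using this))
    (fun x => by
      have := (hS _ x.2).2.1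
      show 1 / 2 < ((x : ℂ) - (i : ℂ) / 2).re
      rw [sh_re]
      linarith)
    (fun x => by
      have h2 := (hS _ x.2).2.2.1
      show C₀ * K ((x : ℂ) - (i : ℂ) / 2).im ≤ Real.exp ((((x : ℂ) - (i : ℂ) / 2).re - 1 / 2) * L)
      rw [e1, sh_im]
      exact (hK _).trans h2)
    (fun x ρ hρ => by
      obtain ⟨-, -, -, h3⟩ := hS _ x.2
      have h4 := h3 ((ρ : ℂ) + (i : ℂ) / 2) ((h _).symm.trans ρ.2) (by
        have e2 : ((ρ : ℂ) + (i : ℂ) / 2).im = (ρ : ℂ).im := by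
          rw [Complex.add_im]
          simp
        have e3 : |(ρ : ℂ).im - ((x : ℂ) - (i : ℂ) / 2).im| ≤ 33 * L := hρ
        rw [sh_im] at e3
        rw [e2]
        exact e3)
      have e4 : ((ρ : ℂ) + (i : ℂ) / 2).re - ((i : ℝ) + 1) / 2 = (ρ : ℂ).re - 1 / 2 := by
        have := e1 ((ρ : ℂ) + (i : ℂ) / 2)
        rw [add_sub_cancel_right] at this
        exact this.symm
      rw [e4] at h4
      show (ρ : ℂ) = (x : ℂ) - (i : ℂ) / 2 ∨ (ρ : ℂ) = 1 - conj ((x : ℂ) - (i : ℂ) / 2) ∨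
        C₀ * K ((x : ℂ) - (i : ℂ) / 2).im * Real.exp (|(ρ : ℂ).re - 1 / 2| * L) ≤
          Real.exp ((((x : ℂ) - (i : ℂ) / 2).re - 1 / 2) * L)
      rw [e1, sh_im]
      refine h4.imp (fun h5 => ?_) (Or.imp (fun h5 => ?_) fun h5 => ?_)
      · rw [← h5, add_sub_cancel_right]
      · rw [map_sub, map_div₀, Complex.conj_natCast, Complex.conj_ofNat, eq_sub_iff_add_eq]
        linear_combination h5
      · exact (mul_le_mul_of_nonneg_right (hK _) (Real.exp_pos _).le).trans h5)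
  have hcard : Fintype.card {x // x ∈ S} = S.card := Fintype.card_coe S
  exact h.neg (by linarith) (Fintype.equivFinOfCardEq hcard).symm ⟨F, hF⟩

end


open Pool.Agent.Zk2.HW (IsHW)

lemma HW.hw {i N D r : ℕ} {Q : ℝ} {μ : Fin D → ℝ} {P : ℕ → ℂ[X]} {Λ : ℂ → ℂ}
    (h : HW i N r Q μ P Λ) : IsHW i N r Q μ P Λ :=
  ⟨h.degree_pos, h.r_le, h.one_le, h.gamma, h.constant, h.degree, h.roots, h.pure, h.entire, h.order, h.functional,
    h.euler⟩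

lemma HW.of {i N D r : ℕ} {Q : ℝ} {μ : Fin D → ℝ} {P : ℕ → ℂ[X]} {Λ : ℂ → ℂ}
    (h : IsHW i N r Q μ P Λ) : HW i N r Q μ P Λ :=
  ⟨h.degree_pos, h.r_le, h.one_le, h.gamma, h.constant, h.degree, h.roots, h.pure, h.entire, h.order, h.functional,
    h.euler⟩

lemma Far_mono {i : ℕ} {Λ : ℂ → ℂ} {T T' : ℝ} (h : T ≤ T') : Far i Λ T ⊆ Far i Λ T' := fun ρ hρ =>
  ⟨hρ.1, (add_le_add le_rfl (Real.exp_le_exp.2 (neg_le_neg h))).trans hρ.2.1, hρ.2.2.trans h⟩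

lemma DecidedBy.mono {i : ℕ} {Λ : ℂ → ℂ} {L T T' : ℝ} (h : T ≤ T') (hd : DecidedBy i Λ L T) : DecidedBy i Λ L T' := by
  obtain ⟨c, hc, h1⟩ := hd
  refine ⟨c, hc, fun f hf hz => h1 f hf fun ρ hρ => ?_⟩
  obtain ⟨σ, h2, h3, h4⟩ := hz ρ (Far_mono h hρ)
  exact ⟨σ, h2, h3.trans (Real.exp_le_exp.2 (neg_le_neg h)), h4⟩

theorem main (D r N : ℕ) (B δ : ℝ) (hN : N ≠ 0) (hδ : 0 < δ) : ∃ C c : ℝ, 0 < C ∧ 0 < c ∧
    ∀ (i : ℕ) (Q : ℝ) (μ : Fin D → ℝ) (P : ℕ → ℂ[X]) (Λ : ℂ → ℂ), HW i N r Q μ P Λ → (∀ j, μ j ≤ B) →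
    (∀ (L : ℝ) (f : ℝ → ℂ), 0 < L → Test i L f → Summable (term i Λ f) ∧ (W i Λ f).im = 0) ∧
    (∀ L : ℝ, 0 < L → (D + 2 * r + δ) * Real.exp (L / 2) + C ≤ Real.log Q →
      ∀ f : ℝ → ℂ, Test i L f → ∫ x, ‖f x‖ ^ 2 ≤ (W i Λ f).re) ∧
    (∀ (L : ℝ) (n : ℕ), 0 < L → Neg i Λ L n →
      Sep i Λ (C * Real.exp (((D + 2 * r + δ) * Real.exp (L / 2) - Real.log Q) / D)) n) ∧
    (∀ (L : ℝ) (n : ℕ), C * Real.log (3 * Q) ≤ L → Sep i Λ (Real.exp (c * L)) n → Neg i Λ L n) ∧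
    (∀ n : ℕ, (∃ L : ℝ, 0 < L ∧ Neg i Λ L n) ↔ (n : ℕ∞) ≤ {ρ : ℂ | Λ ρ = 0 ∧ ((i : ℝ) + 1) / 2 < ρ.re}.encard) ∧
    (∀ L : ℝ, 1 ≤ L → ∀ S : Finset ℂ,
      (∀ ρ₀ ∈ S, Λ ρ₀ = 0 ∧ ((i : ℝ) + 1) / 2 < ρ₀.re ∧
        C * Real.log (Q * (3 + |ρ₀.im|)) ≤ Real.exp ((ρ₀.re - ((i : ℝ) + 1) / 2) * L) ∧
        ∀ ρ : ℂ, Λ ρ = 0 → ((i : ℝ) + 1) / 2 < ρ.re → |ρ.im - ρ₀.im| ≤ 33 * L → ρ = ρ₀) → Neg i Λ L S.card) := by
  by_cases hD : 1 ≤ D
  swap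
  · exact ⟨1, 1, one_pos, one_pos, fun i Q μ P Λ h _ => absurd h.degree_pos hD⟩
  have hr0 : (0 : ℝ) ≤ r := Nat.cast_nonneg _
  have hD0 : (0 : ℝ) ≤ D := Nat.cast_nonneg _
  obtain ⟨e, he, hbr⟩ := Pool.Agent.Zk1.WM.bridge D N hN (δ / 2) (half_pos hδ)
  set A : ℝ := max B 0 with hA
  have hA0 : 0 ≤ A := le_max_right _ _
  have hκ : (0 : ℝ) ≤ D + δ / 2 := by positivity
  obtain ⟨C₁, hC₁, h₁⟩ := Pool.Agent.Zk3.WI.asy D hD r (A := A) hA0 hκ he (half_pos hδ)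
  obtain ⟨C₂, hC₂, h₂⟩ := Pool.Agent.Zk3.WI.pos_dir D (A := A) hκ he (half_pos hδ)
  obtain ⟨K, hK, h₃⟩ := Pool.Agent.Zk3.WI.zsumU D A hA0
  obtain ⟨c, A', hc, hA', h₄⟩ := Pool.Agent.Zk4.C.index_gen' hK
  obtain ⟨C₀, hC₀, h₅⟩ := Pool.Agent.Zk2.LX.P.isolated_L
  set C : ℝ := C₁ + C₂ + A' + 2 * C₀ * K with hC
  have hK0 : 0 < K := by linarith
  have hCK : 0 < 2 * C₀ * K := by positivity
  have hC1 : C₁ ≤ C := by rw [hC]; linarith
  have hC2 : C₂ ≤ C := by rw [hC]; linarith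
  have hC4 : A' ≤ C := by rw [hC]; linarith
  have hC5 : 2 * C₀ * K ≤ C := by rw [hC]; linarith
  have hC0 : 0 < C := by linarith
  have e1 : (D : ℝ) + δ / 2 + 2 * r + δ / 2 = D + 2 * r + δ := by ring
  refine ⟨C, c, hC0, hc, fun i Q μ P Λ h hμ => ?_⟩
  obtain ⟨Lf, k1, k2, k3, k4, k5⟩ := hbr i r Q μ P Λ A h.hw fun j => (hμ j).trans (le_max_left _ _)
  have hn : Nor i Λ Lf := k4
  have hQ : 1 ≤ Q := h.one_le
  have hlogQ : 0 ≤ Real.log Q := Real.log_nonneg hQ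
  have hdec : ∀ L : ℝ, 0 < L →
      DecidedBy i Λ L (C * Real.exp (((D + 2 * r + δ) * Real.exp (L / 2) - Real.log Q) / D)) := by
    intro L hL
    obtain ⟨c', hc', h6⟩ := h₁ Lf k1 k2 k5 (L / 2) (by linarith)
    rw [e1, k3] at h6
    exact (hn.dec hL hc' fun f hf hz => h6 f hf (Or.inr hz)).mono (mul_le_mul_of_nonneg_right hC1 (Real.exp_pos _).le)
  have hz := h₃ Lf _ _ k1 k5
  rw [k3] at hz
  refine ⟨fun L f hL hf => hn.conv hL hf, fun L hL h6 f hf => ?_, fun L n hL hneg => hn.index (hdec L hL) hneg,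
    fun L n hL hS => ?_, fun n => hn.total (fun L hL => ⟨_, hdec L hL⟩) n, fun L hL S hS => ?_⟩
  · have h7 := hn.pos hL (c := 1) (fun f hf => by
      rw [one_mul]
      refine h₂ Lf k1 k5 (L / 2) (by linarith) ?_ f hf
      rw [k2, k3, e1]
      linarith) hf
    rwa [one_mul] at h7
  · have hlog3 : 1 ≤ Real.log 3 := by
      rw [Real.le_log_iff_exp_le (by norm_num)]
      exact Real.exp_one_lt_three.le
    have e2 : Real.log (3 * Q) = Real.log 3 + Real.log Q := Real.log_mul (by norm_num) (by linarith)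
    have hL' : A' * (Real.log Q + 1) ≤ L := by
      refine le_trans ?_ hL
      rw [e2]
      exact mul_le_mul hC4 (by linarith) (by linarith) hC0.le
    have hL0 : 0 < L := lt_of_lt_of_le (by positivity) hL'
    obtain ⟨S, hS1, hS2, hS3⟩ := hS
    rw [← hS3]
    exact hn.sep hL0 (fun S => h₄ (D := zd (L := Lf)) (EC := zc (L := Lf)) (Real.log Q + 1) (by linarith) hz L hL' S) S hS1 hS2
  · refine hn.iso (K := fun t => K * ((Real.log Q + 1) + Lg t)) (C₀ := C₀) (C := C) (Q := Q) (fun L hL ι _ z => ?_)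
      (fun t => ?_) hL S fun ρ₀ hρ₀ => ?_
    · exact h₅ Lf _ (fun t => by
        have := one_le_Lg t
        show 1 ≤ K * ((Real.log Q + 1) + Lg t)
        nlinarith) hz L hL ι z
    · have h8 := one_le_Lg t
      have e3 : Real.log (Q * (3 + |t|)) = Real.log Q + Lg t := Real.log_mul (by linarith) (by positivity)
      rw [e3]
      show C₀ * (K * ((Real.log Q + 1) + Lg t)) ≤ _
      calc C₀ * (K * ((Real.log Q + 1) + Lg t)) = (C₀ * K) * ((Real.log Q + 1) + Lg t) := by ring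
        _ ≤ (C₀ * K) * (2 * (Real.log Q + Lg t)) := mul_le_mul_of_nonneg_left (by linarith) (by positivity)
        _ = (2 * C₀ * K) * (Real.log Q + Lg t) := by ring
        _ ≤ C * (Real.log Q + Lg t) := mul_le_mul_of_nonneg_right hC5 (by linarith)
    · obtain ⟨q1, q2, q3, q4⟩ := hS ρ₀ hρ₀
      refine ⟨q1, q2, q3, fun ρ hρ hρi => ?_⟩
      rcases lt_trichotomy ρ.re (((i : ℝ) + 1) / 2) with h9 | h9 | h9
      · obtain ⟨ε, _, hε⟩ := h.functional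
        have h10 : Λ (i + 1 - conj ρ) = 0 := by
          rw [hε]
          have e4 : (i : ℂ) + 1 - conj ((i : ℂ) + 1 - conj ρ) = ρ := by
            rw [map_sub, map_add, Complex.conj_natCast, map_one, Complex.conj_conj]
            ring
          rw [e4, hρ, map_zero, mul_zero]
        have h11 : (i + 1 - conj ρ : ℂ).re = (i : ℝ) + 1 - ρ.re := by simp
        have h12 : (i + 1 - conj ρ : ℂ).im = ρ.im := by simp
        have h13 := q4 _ h10 (by rw [h11]; linarith) (by rw [h12]; exact hρi)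
        right
        left
        rw [← h13, map_sub, map_add, Complex.conj_natCast, map_one, Complex.conj_conj]
        ring
      · right
        right
        rw [h9, sub_self, abs_zero, zero_mul, Real.exp_zero, mul_one]
        exact q3
      · exact Or.inl (q4 ρ hρ h9 hρi)


lemma newform_HW' {i : ℕ} (π : Part i) : ∃ (μ : Fin 2 → ℝ) (Λ : ℂ → ℂ), (∀ j, μ j ≤ (i : ℝ) / 2 + 1) ∧
    IsHW i 1 0 (π.N : ℝ) μ (polyF π) Λ := by
  have : NeZero π.N := ⟨Nat.one_le_iff_ne_zero.1 π.N_pos⟩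
  have hf := π.newform
  obtain ⟨η, hη, hfr⟩ := hf.fricke
  have hI : ‖(1 / Complex.I) ^ π.k‖ = 1 := by
    rw [norm_pow, norm_div, norm_one, Complex.norm_I, div_one, one_pow]
  have hf' : Pool.Agent.W355.LJ.IsNF π.N π.k π.f (η * (1 / Complex.I) ^ π.k) := by
    refine ⟨hf.one, by rw [norm_mul, hη, hI, one_mul], fun τ τ' τ'' h1 h2 => ?_⟩
    rw [hfr τ τ' τ'' h1 h2, zpow_natCast, div_eq_mul_one_div (((Real.sqrt π.N : ℝ) : ℂ) * (τ : ℂ)) Complex.I, mul_pow]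
    ring
  obtain ⟨μ, Λ, h1, h2⟩ := Pool.Agent.Zk1.WM.newf_HW π.k_pos π.f hf' (ψ := fun p : ℕ => π.ψ (p : ZMod π.N)) hf.mul
    hf.pow hf.deligne π.weight
  refine ⟨μ, Λ, fun j => (h1 j).trans ?_, h2⟩
  have h3 : ((π.k : ℕ) : ℝ) + 2 * (π.r : ℝ) = (i : ℝ) + 1 := by exact_mod_cast π.weight
  have h4 : (0 : ℝ) ≤ π.r := Nat.cast_nonneg _
  linarith

/-- products of newforms, Hecke characters and Tate twists -/
theorem members (i n m t : ℕ) (K : Fin m → Type) [∀ j, Field (K j)] [∀ j, NumberField (K j)]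
    (ν : ∀ j, (K j →+* ℂ) → ℕ) (hν : ∀ j φ, ν j φ = 0 ∨ ν j (ComplexEmbedding.conjugate φ) = 0) (hpos : 1 ≤ n + t + m) : ∃ B : ℝ,
    ∀ (π : Fin n → Part i) (𝔣 : ∀ j, Ideal (𝓞 (K j))) (ψ : ∀ j, Ideal (𝓞 (K j)) →*₀ ℂ),
      (∀ j, 𝔣 j ≠ ⊤ ∧ IsHecke (𝔣 j) (ν j) (ψ j)) →
      ∃ (μ : Fin (2 * n + (t + ∑ j, Module.finrank ℚ (K j))) → ℝ) (Λ : ℂ → ℂ), (∀ j, μ j ≤ B) ∧
        HW i 1 t ((∏ j, ((π j).N : ℝ)) * ∏ j, ((Ideal.absNorm (𝔣 j) *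
          Ideal.absNorm (differentIdeal ℤ (𝓞 (K j))) : ℕ) : ℝ)) μ
          (fun p => (∏ j, polyF (π j) p) *
            ((1 - C ((p : ℂ) ^ ((i : ℂ) / 2)) * X) ^ t * ∏ j, polyH i (ψ j) p)) Λ := by
  obtain ⟨B, _, h⟩ := Pool.Agent.Zk6.HM.members_gen (n := n) ((i : ℝ) / 2 + 1) K ν hν t hpos
  refine ⟨B, fun π 𝔣 ψ hψ => ?_⟩
  choose μ₀ Λ₀ h1 h2 using fun j => newform_HW' (π j)
  obtain ⟨μ, Λ, h3, h4⟩ := h i (fun _ => 2) (fun _ => 0) (fun j => ((π j).N : ℝ)) (fun j => polyF (π j)) Λ₀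
    (fun j => ⟨μ₀ j, h1 j, h2 j⟩) 𝔣 ψ (fun j => ⟨(hψ j).1, ⟨(hψ j).2.ne_bot, (hψ j).2.supp, (hψ j).2.ray, (hψ j).2.prim⟩⟩)
  obtain ⟨μ', h5, h6⟩ := Pool.Agent.Zk6.HM.cast_HW h4 h3 (D' := 2 * n + (t + ∑ j, Module.finrank ℚ (K j))) (by
    rw [Finset.sum_const, Finset.card_univ, Fintype.card_fin, smul_eq_mul, mul_comm])
  refine ⟨μ', Λ, h5, HW.of ?_⟩
  rw [Finset.sum_const_zero, zero_add] at h6
  exact h6

/-- **The theorem.** (I) For all `D`, `r`, `N ≥ 1`, `B` and `δ > 0` there are `C, c > 0` such that for every completed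
L-function `Λ` of Hasse-Weil type (of degree `D`, with `μ_j ≤ B`, in any degree `i` of the cohomology, of any
conductor `Q`):

(0) the sum over the zeros which defines Weil's form converges absolutely and is real for all test functions;
(1) `W(f) ≥ ∫ |f|²` for all test functions of length `L` if `(D + 2r + δ) exp(L/2) + C ≤ log Q`;
(2) `N(L) ≤ P(T)` for all `L > 0`, with `T = C exp(((D + 2r + δ) exp(L/2) - log Q) / D)`;
(3) `N(L) ≥ P(exp(cL))` for `L ≥ C log 3Q`;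
(4) the supremum of `N(L)` is the number of zeros to the right of the critical line;
(5) `N(L) ≥ |S|` for every finite set `S` of zeros `β + iγ` to the right of the line with
  `C log(Q (3 + |γ|)) ≤ exp((β - (i+1)/2) L)`, if each of them is the only zero to the right of the line at a height
  within `33 L` of `γ`.

(II) Unconditionally, products of L-functions of `n` newforms, `m` Hecke characters of number fields and `t` Tate twists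
of the zeta function belong to the class, with `N = 1`, `r = t`, the product of the conductors, and a bound `B` which
depends only on `i`, `n`, `t`, the number fields and the infinity types. -/
theorem result :
    (∀ (D r N : ℕ) (B δ : ℝ), N ≠ 0 → 0 < δ → ∃ C c : ℝ, 0 < C ∧ 0 < c ∧
      ∀ (i : ℕ) (Q : ℝ) (μ : Fin D → ℝ) (P : ℕ → ℂ[X]) (Λ : ℂ → ℂ), HW i N r Q μ P Λ → (∀ j, μ j ≤ B) →
      (∀ (L : ℝ) (f : ℝ → ℂ), 0 < L → Test i L f → Summable (term i Λ f) ∧ (W i Λ f).im = 0) ∧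
      (∀ L : ℝ, 0 < L → (D + 2 * r + δ) * Real.exp (L / 2) + C ≤ Real.log Q →
        ∀ f : ℝ → ℂ, Test i L f → ∫ x, ‖f x‖ ^ 2 ≤ (W i Λ f).re) ∧
      (∀ (L : ℝ) (n : ℕ), 0 < L → Neg i Λ L n →
        Sep i Λ (C * Real.exp (((D + 2 * r + δ) * Real.exp (L / 2) - Real.log Q) / D)) n) ∧
      (∀ (L : ℝ) (n : ℕ), C * Real.log (3 * Q) ≤ L → Sep i Λ (Real.exp (c * L)) n → Neg i Λ L n) ∧
      (∀ n : ℕ, (∃ L : ℝ, 0 < L ∧ Neg i Λ L n) ↔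
        (n : ℕ∞) ≤ {ρ : ℂ | Λ ρ = 0 ∧ ((i : ℝ) + 1) / 2 < ρ.re}.encard) ∧
      (∀ L : ℝ, 1 ≤ L → ∀ S : Finset ℂ,
        (∀ ρ₀ ∈ S, Λ ρ₀ = 0 ∧ ((i : ℝ) + 1) / 2 < ρ₀.re ∧
          C * Real.log (Q * (3 + |ρ₀.im|)) ≤ Real.exp ((ρ₀.re - ((i : ℝ) + 1) / 2) * L) ∧
          ∀ ρ : ℂ, Λ ρ = 0 → ((i : ℝ) + 1) / 2 < ρ.re → |ρ.im - ρ₀.im| ≤ 33 * L → ρ = ρ₀) → Neg i Λ L S.card)) ∧
    (∀ (i n m t : ℕ) (K : Fin m → Type) [∀ j, Field (K j)] [∀ j, NumberField (K j)]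
      (ν : ∀ j, (K j →+* ℂ) → ℕ), (∀ j φ, ν j φ = 0 ∨ ν j (ComplexEmbedding.conjugate φ) = 0) → 1 ≤ n + t + m → ∃ B : ℝ,
      ∀ (π : Fin n → Part i) (𝔣 : ∀ j, Ideal (𝓞 (K j))) (ψ : ∀ j, Ideal (𝓞 (K j)) →*₀ ℂ),
        (∀ j, 𝔣 j ≠ ⊤ ∧ IsHecke (𝔣 j) (ν j) (ψ j)) →
        ∃ (μ : Fin (2 * n + (t + ∑ j, Module.finrank ℚ (K j))) → ℝ) (Λ : ℂ → ℂ), (∀ j, μ j ≤ B) ∧
          HW i 1 t ((∏ j, ((π j).N : ℝ)) * ∏ j, ((Ideal.absNorm (𝔣 j) *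
            Ideal.absNorm (differentIdeal ℤ (𝓞 (K j))) : ℕ) : ℝ)) μ
            (fun p => (∏ j, polyF (π j) p) *
              ((1 - C ((p : ℂ) ^ ((i : ℂ) / 2)) * X) ^ t * ∏ j, polyH i (ψ j) p)) Λ) :=
  ⟨fun D r N B δ hN hδ => main D r N B δ hN hδ, fun i n m t K _ _ ν hν hpos => members i n m t K ν hν hpos⟩

end Pool.Agent.Results.MP_7193be_nt.WeilIndexHasseWeil
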